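import Pool.Agent.KB.Contr

/-! Algebraic integers near a maximal ideal over `p`. -/

namespace Pool.Agent.KBL

open Pool.Agent.KB Pool.Agent.KB.ContrAux

theorem LimA_int {p : ℕ} (hp : p.Prime) {𝔪 : Ideal AInt} (h𝔪 : 𝔪.IsMaximal)
    (hp𝔪 : (p : AInt) ∈ 𝔪) {t : ℤ} (ht : (t : AInt) ∈ 𝔪) : (p : ℤ) ∣ t :=
  InM_int hp h𝔪 hp𝔪 ⟨(t : AInt), ht, by push_cast; rfl⟩

/-- HINT: `γ` is a root of a monic integer polynomial `f`. Modulo `p` write `f = X^n g`,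
`g(0) ≢ 0`; lift: `f = X^n g + p h` with integer polynomials, `p ∤ g(0)`. So `p ∣ γ^n g(γ)`; put
`s = g(γ) ≡ g(0)` modulo `𝔪`, and an integer in `𝔪` is divisible by `p` (`InM_int`). -/
theorem LimA_nil (p : ℕ) (hp : p.Prime) (𝔪 : Ideal AInt) (h𝔪 : 𝔪.IsMaximal)
    (hp𝔪 : (p : AInt) ∈ 𝔪) (γ : AInt) (hγ : γ ∈ 𝔪) :
    ∃ (s : AInt) (n : ℕ), s ∉ 𝔪 ∧ (p : AInt) ∣ s * γ ^ n := by
  classical
  obtain ⟨f, hf, hf0⟩ := integralClosure.isIntegral (R := ℤ) (A := ℂ) γ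
  have hf1 : Polynomial.aeval γ f = 0 := hf0
  rw [Polynomial.aeval_eq_sum_range] at hf1
  have hex : ∃ k, ¬ (p : ℤ) ∣ f.coeff k := by
    refine ⟨f.natDegree, fun h => ?_⟩
    rw [hf.coeff_natDegree] at h
    have := Int.eq_one_of_dvd_one (by positivity) h
    exact hp.one_lt.ne' (by exact_mod_cast this)
  set n := Nat.find hex with hn
  have hn1 : ¬ (p : ℤ) ∣ f.coeff n := Nat.find_spec hex
  have hn2 : ∀ k < n, (p : ℤ) ∣ f.coeff k := fun k hk => by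
    have := Nat.find_min hex hk
    push Not at this
    exact this
  have hnN : n ≤ f.natDegree := by
    by_contra hcon
    push Not at hcon
    apply hn1
    rw [Polynomial.coeff_eq_zero_of_natDegree_lt hcon]
    exact dvd_zero _
  obtain ⟨m, hm⟩ := Nat.exists_eq_add_of_le hnN
  rw [hm, add_assoc, Finset.sum_range_add] at hf1
  refine ⟨∑ j ∈ Finset.range (m + 1), f.coeff (n + j) • γ ^ j, n, ?_, ?_⟩
  · rw [Finset.sum_range_succ']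
    intro h
    have h1 : (∑ k ∈ Finset.range m, f.coeff (n + (k + 1)) • γ ^ (k + 1)) ∈ 𝔪 := by
      refine 𝔪.sum_mem fun k _ => ?_
      rw [zsmul_eq_mul, pow_succ]
      exact 𝔪.mul_mem_left _ (𝔪.mul_mem_left _ hγ)
    have h2 := (𝔪.add_mem_iff_right h1).1 h
    rw [pow_zero, add_zero, zsmul_eq_mul, mul_one] at h2
    exact hn1 (LimA_int hp h𝔪 hp𝔪 h2)
  · have h1 : (p : AInt) ∣ ∑ x ∈ Finset.range n, f.coeff x • γ ^ x := by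
      refine Finset.dvd_sum fun k hk => ?_
      obtain ⟨c, hc⟩ := hn2 k (Finset.mem_range.1 hk)
      rw [hc, zsmul_eq_mul]
      refine ⟨(c : AInt) * γ ^ k, ?_⟩
      push_cast
      ring
    have h2 : (∑ j ∈ Finset.range (m + 1), f.coeff (n + j) • γ ^ j) * γ ^ n =
        ∑ x ∈ Finset.range (m + 1), f.coeff (n + x) • γ ^ (n + x) := by
      rw [Finset.sum_mul]
      refine Finset.sum_congr rfl fun j _ => ?_
      rw [smul_mul_assoc, pow_add, mul_comm (γ ^ j)]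
    rw [h2]
    rw [add_comm] at hf1
    rw [eq_neg_of_add_eq_zero_left hf1]
    exact (dvd_neg).2 h1

/-- HINT: `LimA_nil` for `γ = β - 1`; for `p^i ≥ n`: `β^(p^i) - 1 ≡ (β-1)^(p^i)` modulo `p`
(`AInt ⧸ (p)` has characteristic `p`, `sub_pow_char_pow`), so `p ∣ s * (β^(p^i) - 1)`. -/
theorem LimA_unit (p : ℕ) (hp : p.Prime) (𝔪 : Ideal AInt) (h𝔪 : 𝔪.IsMaximal)
    (hp𝔪 : (p : AInt) ∈ 𝔪) (β : AInt) (hβ : β - 1 ∈ 𝔪) :
    ∃ (s : AInt) (i₀ : ℕ), s ∉ 𝔪 ∧ ∀ i, i₀ ≤ i → (p : AInt) ∣ s * (β ^ (p ^ i) - 1) := by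
  obtain ⟨s, n, hs, hd⟩ := LimA_nil p hp 𝔪 h𝔪 hp𝔪 (β - 1) hβ
  refine ⟨s, n, hs, fun i hi => ?_⟩
  obtain ⟨r, hr⟩ := exists_add_pow_prime_pow_eq hp (β - 1) 1 i
  rw [sub_add_cancel, one_pow] at hr
  have h1 : s * (β ^ (p ^ i) - 1) = s * (β - 1) ^ (p ^ i) + p * (s * ((β - 1) * r)) := by
    rw [hr]
    ring
  rw [h1]
  refine dvd_add ?_ (Dvd.intro _ rfl)
  have h2 : n ≤ p ^ i := hi.trans (Nat.lt_pow_self hp.one_lt).le
  obtain ⟨k, hk⟩ := Nat.exists_eq_add_of_le h2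
  rw [hk, pow_add, ← mul_assoc]
  exact Dvd.dvd.mul_right hd _

/-- HINT: if `κ ≠ 0` then `κ * κ' = N` with `κ' ∈ AInt` and a nonzero integer `N` (constant
coefficient of the minimal polynomial); so `p^(r+1) ∣ s^(p^r) N`. Write `N = p^v n`, `p ∤ n`, take
`r ≥ v`: `p ∣ s^(p^r) n` (`AInt` is a domain of characteristic zero), so `s^(p^r) n ∈ 𝔪`, which is
prime; `s ∉ 𝔪` and `n ∉ 𝔪` (`InM_int`). -/
theorem LimA_zero (p : ℕ) (hp : p.Prime) (𝔪 : Ideal AInt) (h𝔪 : 𝔪.IsMaximal)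
    (hp𝔪 : (p : AInt) ∈ 𝔪) (s κ : AInt) (hs : s ∉ 𝔪)
    (h : ∀ r₀ : ℕ, ∃ r, r₀ ≤ r ∧ (p : AInt) ^ (r + 1) ∣ s ^ (p ^ r) * κ) : κ = 0 := by
  by_contra hκ
  have hint : IsIntegral ℤ κ := integralClosure.isIntegral (R := ℤ) (A := ℂ) κ
  obtain ⟨N, h0, κ', hκ'⟩ : ∃ N : ℤ, N ≠ 0 ∧ ∃ κ' : AInt, κ * κ' = (N : AInt) := by
    obtain ⟨N, hN, κ', hκ'⟩ := hint.isAlgebraic.exists_nonzero_dvd
      (mem_nonZeroDivisors_of_ne_zero hκ)
    exact ⟨N, hN, κ', hκ'.symm⟩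
  obtain ⟨v, n, hn, hNn⟩ : ∃ (v : ℕ) (n : ℤ), ¬ (p : ℤ) ∣ n ∧ N = (p : ℤ) ^ v * n := by
    have hfin : FiniteMultiplicity (p : ℤ) N := by
      rw [Int.finiteMultiplicity_iff]
      refine ⟨?_, h0⟩
      simpa using hp.one_lt.ne'
    obtain ⟨n, h1, h2⟩ := hfin.exists_eq_pow_mul_and_not_dvd
    exact ⟨_, n, h2, h1⟩
  obtain ⟨r, hr, hd⟩ := h v
  have h3 : (p : AInt) ^ (r + 1) ∣ (p : AInt) ^ v * (s ^ (p ^ r) * (n : AInt)) := by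
    have h4 : s ^ (p ^ r) * κ * κ' = (p : AInt) ^ v * (s ^ (p ^ r) * (n : AInt)) := by
      rw [mul_assoc, hκ', hNn]
      push_cast
      ring
    rw [← h4]
    exact Dvd.dvd.mul_right hd _
  have hp0 : (p : AInt) ^ v ≠ 0 := pow_ne_zero _ (by
    exact_mod_cast hp.ne_zero)
  have h5 : (p : AInt) ∣ s ^ (p ^ r) * (n : AInt) := by
    obtain ⟨k, hk⟩ := Nat.exists_eq_add_of_le hr
    have h3' : (p : AInt) ^ v * (p : AInt) ^ (k + 1) ∣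
        (p : AInt) ^ v * (s ^ (p ^ r) * (n : AInt)) := by
      rw [← pow_add, ← add_assoc, ← hk]
      exact h3
    have h6 := (mul_dvd_mul_iff_left hp0).1 h3'
    exact (dvd_pow_self _ (Nat.succ_ne_zero k)).trans h6
  have h7 : s ^ (p ^ r) * (n : AInt) ∈ 𝔪 := by
    obtain ⟨c, hc⟩ := h5
    rw [hc]
    exact 𝔪.mul_mem_right _ hp𝔪
  rcases h𝔪.isPrime.mem_or_mem h7 with h8 | h8
  · exact hs (h𝔪.isPrime.mem_of_pow_mem _ h8)
  · exact hn (LimA_int hp h𝔪 hp𝔪 h8)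

end Pool.Agent.KBL
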