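import Pool.Agent.KBL.CenA

/-! A central element of the group algebra over the algebraic integers which acts as a unit modulo
`𝔪` on the characters of a block and as zero on the other characters. -/

namespace Pool.Agent.KBL

open Pool.Agent.KB Pool.Agent.KB.ContrAux

open Classical in
/-- The value of the central character as an algebraic integer. -/
noncomputable def Cen_om {G : Type} [Group G] (η : G → ℂ) (g : G) : AInt :=
  if h : IsIntegral ℤ (omega η g) then ⟨omega η g, h⟩ else 0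

theorem Cen_om_coe {G : Type} [Group G] [Finite G] {η : G → ℂ} (h : η ∈ Irr G) (g : G) :
    ((Cen_om η g : AInt) : ℂ) = omega η g := by
  obtain ⟨n, ρ, hρ, rfl⟩ := h
  rw [Cen_om, dif_pos (Omega_int ρ hρ g)]

theorem Cen_step {G : Type} [Group G] [Fintype G] (𝔪 : Ideal AInt) (h𝔪 : 𝔪.IsMaximal)
    (χ₀ : G → ℂ) (hχ₀ : χ₀ ∈ Irr G) {K : ℕ} (X : Fin K → G → ℂ) (hX : Set.range X = Irr G)
    (s : Finset (Fin K)) :
    ∃ (b : MonoidAlgebra AInt G) (β : (G → ℂ) → AInt),
      (∀ α, Commute b α) ∧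
      (∀ η ∈ Irr G, ∀ α, ev η (α * b) = ((β η : AInt) : ℂ) * ev η α) ∧
      (∀ i ∈ s, X i ∉ block 𝔪 χ₀ → β (X i) = 0) ∧
      (∀ η ∈ block 𝔪 χ₀, β η - 1 ∈ 𝔪) := by
  classical
  induction s using Finset.induction_on with
  | empty =>
    refine ⟨1, fun _ => 1, fun α => Commute.one_left α, fun η _ α => ?_, fun i hi => ?_,
      fun η _ => ?_⟩
    · rw [mul_one]
      simp
    · simp at hi
    · rw [sub_self]
      exact 𝔪.zero_mem
  | insert i s _ ih =>
    obtain ⟨b, β, hb1, hb2, hb3, hb4⟩ := ih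
    by_cases hi : X i ∈ block 𝔪 χ₀
    · refine ⟨b, β, hb1, hb2, fun j hj hjb => ?_, hb4⟩
      rcases Finset.mem_insert.1 hj with rfl | hj
      · exact absurd hi hjb
      · exact hb3 j hj hjb
    · have hXi : X i ∈ Irr G := hX ▸ Set.mem_range_self i
      have h1 : ¬ SameBlock 𝔪 χ₀ (X i) := fun h => hi ⟨hXi, h⟩
      unfold SameBlock at h1
      push Not at h1
      obtain ⟨g, hg⟩ := h1
      have hd : Cen_om χ₀ g - Cen_om (X i) g ∉ 𝔪 := by
        intro h
        refine hg _ h ?_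
        push_cast
        rw [Cen_om_coe hχ₀, Cen_om_coe hXi]
      obtain ⟨u, c, hc, huc⟩ := h𝔪.exists_inv hd
      have hud : u * (Cen_om χ₀ g - Cen_om (X i) g) - 1 ∈ 𝔪 := by
        have : u * (Cen_om χ₀ g - Cen_om (X i) g) - 1 = - c := by
          rw [← huc]; ring
        rw [this]
        exact 𝔪.neg_mem hc
      set t : MonoidAlgebra AInt G := u • (clsum g - Cen_om (X i) g • 1) with ht
      have htc : ∀ α, Commute t α := by
        intro α
        rw [ht]
        exact ((CenA_comm g α).sub_left ((Commute.one_left α).smul_left _)).smul_left _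
      have hev : ∀ η ∈ Irr G, ∀ α, ev η (t * α) =
          ((u * (Cen_om η g - Cen_om (X i) g) : AInt) : ℂ) * ev η α := by
        intro η hη α
        obtain ⟨e1, e2, -⟩ := CenA_basic η
        have h2 : t * α = u • (clsum g * α + (- Cen_om (X i) g) • α) := by
          rw [ht, smul_mul_assoc, sub_mul, smul_mul_assoc, one_mul, neg_smul, ← sub_eq_add_neg]
        rw [h2, e2, e1, e2, CenA_scalar η hη]
        push_cast
        rw [Cen_om_coe hη]
        ring
      refine ⟨b * t, fun η => β η * (u * (Cen_om η g - Cen_om (X i) g)),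
        fun α => (hb1 α).mul_left (htc α), fun η hη α => ?_, fun j hj hjb => ?_, fun η hη => ?_⟩
      · rw [← mul_assoc, ← (htc (α * b)).eq, hev η hη, hb2 η hη]
        push_cast
        ring
      · rcases Finset.mem_insert.1 hj with rfl | hj
        · simp
        · simp [hb3 j hj hjb]
      · obtain ⟨c', hc', hcc⟩ := hη.2 g
        have h3 : c' = Cen_om χ₀ g - Cen_om η g := by
          apply Subtype.ext
          rw [hcc]
          push_cast
          rw [Cen_om_coe hχ₀, Cen_om_coe hη.1]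
        have h4 : u * (Cen_om η g - Cen_om (X i) g) - 1 ∈ 𝔪 := by
          have : u * (Cen_om η g - Cen_om (X i) g) - 1 =
              (u * (Cen_om χ₀ g - Cen_om (X i) g) - 1) - u * c' := by
            rw [h3]; ring
          rw [this]
          exact 𝔪.sub_mem hud (𝔪.mul_mem_left _ hc')
        have h5 : β η * (u * (Cen_om η g - Cen_om (X i) g)) - 1 =
            (u * (Cen_om η g - Cen_om (X i) g)) * (β η - 1) +
              (u * (Cen_om η g - Cen_om (X i) g) - 1) := by ring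
        change β η * (u * (Cen_om η g - Cen_om (X i) g)) - 1 ∈ 𝔪
        rw [h5]
        exact 𝔪.add_mem (𝔪.mul_mem_left _ (hb4 η hη)) h4

/-- HINT: for `ψ ∈ Irr G` not in the block there is `g_ψ` with
`omega χ₀ g_ψ - omega ψ g_ψ ∉ 𝔪` and, `𝔪` being maximal, `u_ψ ∈ AInt` with
`u_ψ (omega χ₀ g_ψ - omega ψ g_ψ) - 1 ∈ 𝔪`. `b` is the product over the finitely many such `ψ` of
`u_ψ • (clsum g_ψ - omega ψ g_ψ • 1)`, `β η` is the product of the
`u_ψ (omega η g_ψ - omega ψ g_ψ)`. `X` enumerates `Irr G`. By `CenA_scalar`, `CenA_basic`: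
`ev η (α * b) = β η * ev η α`; then `ev η (x * b^N) = β η ^ N * η x` by induction on `N`. -/
theorem Cen_main {G : Type} [Group G] [Fintype G] (𝔪 : Ideal AInt) (h𝔪 : 𝔪.IsMaximal)
    (χ₀ : G → ℂ) (hχ₀ : χ₀ ∈ Irr G) {K : ℕ} (X : Fin K → G → ℂ) (hX : Set.range X = Irr G) :
    ∃ (b : MonoidAlgebra AInt G) (β : (G → ℂ) → AInt),
      (∀ α, Commute b α) ∧
      (∀ η ∈ Irr G, ∀ (x : G) (N : ℕ),
        ev η (MonoidAlgebra.of AInt G x * b ^ N) = ((β η : AInt) : ℂ) ^ N * η x) ∧
      (∀ η ∈ Irr G, η ∉ block 𝔪 χ₀ → β η = 0) ∧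
      (∀ η ∈ block 𝔪 χ₀, β η - 1 ∈ 𝔪) := by
  obtain ⟨b, β, h1, h2, h3, h4⟩ := Cen_step 𝔪 h𝔪 χ₀ hχ₀ X hX Finset.univ
  refine ⟨b, β, h1, fun η hη x N => ?_, fun η hη hηb => ?_, h4⟩
  · induction N with
    | zero => rw [pow_zero, mul_one, pow_zero, one_mul, (CenA_basic η).2.2]
    | succ N ih => rw [pow_succ, ← mul_assoc, h2 η hη, ih, pow_succ]; ring
  · rw [← hX] at hη
    obtain ⟨i, rfl⟩ := hη
    exact h3 i (Finset.mem_univ _) hηb

end Pool.Agent.KBL
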