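import Pool.Agent.KBL.ColA

/-! The irreducible characters: finiteness and the column orthogonality relations. -/

namespace Pool.Agent.KBL

open Pool.Agent.KB

/-- Row orthogonality. -/
theorem Col_row {G : Type} [Group G] [Fintype G] (χ ψ : G → ℂ) (hχ : χ ∈ Irr G)
    (hψ : ψ ∈ Irr G) :
    (χ = ψ → ∑ g, χ g * ψ g⁻¹ = (Nat.card G : ℂ)) ∧ (χ ≠ ψ → ∑ g, χ g * ψ g⁻¹ = 0) := by
  classical
  have hNC : (Nat.card G : ℂ) ≠ 0 := by
    have : 0 < Nat.card G := Nat.card_pos
    exact_mod_cast this.ne'
  have : Invertible (Nat.card G : ℂ) := invertibleOfNonzero hNC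
  obtain ⟨n, ρ, hρ, hρ'⟩ := hχ
  obtain ⟨n', σ, hσ, hσ'⟩ := hψ
  have := hρ
  have := hσ
  constructor
  · intro h
    rw [← h, ← hρ']
    have h1 := Representation.char_orthonormal ρ ρ
    rw [if_pos ⟨Representation.Equiv.refl _⟩] at h1
    rw [inv_mul_eq_one₀ hNC] at h1
    exact h1.symm
  · intro h
    have h1 := Representation.char_orthonormal ρ σ
    rw [if_neg, mul_eq_zero] at h1
    · rcases h1 with h1 | h1
      · exact absurd h1 (inv_ne_zero hNC)
      · rw [← hρ', ← hσ']; exact h1
    · rintro ⟨φ⟩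
      have h2 := Representation.char_iso φ
      rw [hρ', hσ'] at h2
      exact h h2.symm

theorem Col_class {G : Type} [Group G] {χ : G → ℂ} (hχ : χ ∈ Irr G) {g h : G}
    (hgh : IsConj g h) : χ g = χ h := by
  obtain ⟨n, ρ, hρ, rfl⟩ := hχ
  obtain ⟨c, rfl⟩ := isConj_iff.mp hgh
  rw [Representation.char_conj]

theorem Col_finite (G : Type) [Group G] [Fintype G] : Finite (Irr G) := by
  classical
  have hNC : (Nat.card G : ℂ) ≠ 0 := by
    have : 0 < Nat.card G := Nat.card_pos
    exact_mod_cast this.ne'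
  have hli : LinearIndependent ℂ (fun χ : Irr G => (χ.1 : G → ℂ)) := by
    rw [linearIndependent_iff']
    intro s c hc j hj
    have h1 : ∑ g, (∑ i ∈ s, c i • (i.1 : G → ℂ)) g * j.1 g⁻¹ = 0 := by
      rw [hc]; simp
    have h2 : ∑ g, (∑ i ∈ s, c i • (i.1 : G → ℂ)) g * j.1 g⁻¹ =
        ∑ i ∈ s, c i * ∑ g, i.1 g * j.1 g⁻¹ := by
      simp only [Finset.sum_apply, Pi.smul_apply, smul_eq_mul, Finset.mul_sum, Finset.sum_mul]
      rw [Finset.sum_comm]
      exact Finset.sum_congr rfl fun i _ => Finset.sum_congr rfl fun g _ => by ring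
    rw [h2, Finset.sum_eq_single j] at h1
    · rw [(Col_row j.1 j.1 j.2 j.2).1 rfl] at h1
      exact (mul_eq_zero.mp h1).resolve_right hNC
    · intro i _ hij
      rw [(Col_row i.1 j.1 i.2 j.2).2 (fun e => hij (Subtype.ext e)), mul_zero]
    · intro h; exact absurd hj h
  exact hli.finite

theorem Col_main (G : Type) [Group G] [Fintype G] :
    ∃ (K : ℕ) (X : Fin K → G → ℂ), Function.Injective X ∧ Set.range X = Irr G ∧
      (∀ g h : G, ¬ IsConj g h → ∑ i, X i g * X i h⁻¹ = 0) ∧
      (∀ g h : G, IsConj g h → ∑ i, X i g * X i h⁻¹ =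
        (Nat.card G : ℂ) / (Nat.card {x : G // IsConj g x} : ℂ)) := by
  classical
  have := Col_finite G
  obtain ⟨K, ⟨e⟩⟩ := Finite.exists_equiv_fin (Irr G)
  set X : Fin K → G → ℂ := fun i => (e.symm i).1 with hX
  have hXI : ∀ i, X i ∈ Irr G := fun i => (e.symm i).2
  have hinj : Function.Injective X := by
    intro i j hij
    exact e.symm.injective (Subtype.ext hij)
  have hrange : Set.range X = Irr G := by
    ext χ
    constructor
    · rintro ⟨i, rfl⟩; exact hXI i
    · intro hχ
      refine ⟨e ⟨χ, hχ⟩, ?_⟩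
      simp [hX]
  have key : ∀ g h : G, ∑ i, X i g * X i h⁻¹ =
      if IsConj g h then (Nat.card G : ℂ) / (Nat.card {x : G // IsConj h x} : ℂ) else 0 := by
    intro g h
    have hc0 : (Nat.card {x : G // IsConj h x} : ℂ) ≠ 0 := by
      have : Nonempty {x : G // IsConj h x} := ⟨⟨h, IsConj.refl h⟩⟩
      have : 0 < Nat.card {x : G // IsConj h x} := Nat.card_pos
      exact_mod_cast this.ne'
    have hφ := ColA_main (fun g => ∑ i, X i g * X i h⁻¹ -
      if IsConj g h then (Nat.card G : ℂ) / (Nat.card {x : G // IsConj h x} : ℂ) else 0) ?_ ?_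
    · have h1 := congrFun hφ g
      simp only [Pi.zero_apply] at h1
      exact sub_eq_zero.mp h1
    · intro g g' hgg
      have h2 : IsConj g h ↔ IsConj g' h := ⟨fun h' => hgg.symm.trans h', fun h' => hgg.trans h'⟩
      simp only [h2]
      congr 1
      exact Finset.sum_congr rfl fun i _ => by rw [Col_class (hXI i) hgg]
    · intro χ hχ
      obtain ⟨j, rfl⟩ : ∃ j, X j = χ := by
        have : χ ∈ Set.range X := hrange ▸ hχ
        exact this
      simp only [sub_mul, Finset.sum_sub_distrib, Finset.sum_mul]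
      rw [Finset.sum_comm]
      have h3 : ∀ i, ∑ g, X i g⁻¹ * X i h⁻¹ * X j g =
          if i = j then (Nat.card G : ℂ) * X j h⁻¹ else 0 := by
        intro i
        have h4 : ∑ g, X i g⁻¹ * X i h⁻¹ * X j g = X i h⁻¹ * ∑ g, X j g * X i g⁻¹ := by
          rw [Finset.mul_sum]
          exact Finset.sum_congr rfl fun g _ => by ring
        rw [h4]
        by_cases hij : i = j
        · subst hij
          rw [if_pos rfl, (Col_row _ _ (hXI i) (hXI i)).1 rfl, mul_comm]
        · rw [if_neg hij, (Col_row _ _ (hXI j) (hXI i)).2 (fun e => hij (hinj e).symm), mul_zero]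
      simp only [h3, Finset.sum_ite_eq', Finset.mem_univ, if_true]
      have h5 : ∑ g, (if IsConj g⁻¹ h then
          (Nat.card G : ℂ) / (Nat.card {x : G // IsConj h x} : ℂ) else 0) * X j g =
          (Nat.card G : ℂ) * X j h⁻¹ := by
        rw [← Equiv.sum_comp (Equiv.inv G)]
        simp only [Equiv.inv_apply, inv_inv, ite_mul, zero_mul]
        rw [← Finset.sum_filter]
        have h6 : ∀ x ∈ Finset.univ.filter (fun x : G => IsConj x h),
            (Nat.card G : ℂ) / (Nat.card {x : G // IsConj h x} : ℂ) * X j x⁻¹ =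
            (Nat.card G : ℂ) / (Nat.card {x : G // IsConj h x} : ℂ) * X j h⁻¹ := by
          intro x hx
          rw [Finset.mem_filter] at hx
          rw [Col_class (hXI j) (ContrAux.isConj_inv hx.2)]
        rw [Finset.sum_congr rfl h6, Finset.sum_const, nsmul_eq_mul]
        have h7 : ((Finset.univ.filter (fun x : G => IsConj x h)).card : ℂ) =
            (Nat.card {x : G // IsConj h x} : ℂ) := by
          rw [Nat.card_eq_fintype_card, Fintype.card_subtype]
          congr 2
          ext x
          simp only [Finset.mem_filter, Finset.mem_univ, true_and]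
          exact isConj_comm
        rw [h7]
        field_simp
      rw [h5, sub_self]
  refine ⟨K, X, hinj, hrange, ?_, ?_⟩
  · intro g h hgh
    rw [key, if_neg hgh]
  · intro g h hgh
    rw [key, if_pos hgh]
    congr 2
    refine Nat.card_congr (Equiv.subtypeEquivRight fun x => ?_)
    exact ⟨fun h' => hgh.trans h', fun h' => hgh.symm.trans h'⟩

end Pool.Agent.KBL
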