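import Pool.Agent.KBL.Lim

/-! The sums over the `p`-regular elements vanish for characters of different blocks. -/

namespace Pool.Agent.KBL

open Pool.Agent.KB Pool.Agent.KB.ContrAux

open Classical in
theorem Orth_main {G : Type} [Group G] [Fintype G] (p : ℕ) (hp : p.Prime) (𝔪 : Ideal AInt)
    (h𝔪 : 𝔪.IsMaximal) (hp𝔪 : (p : AInt) ∈ 𝔪) (χ ψ : G → ℂ) (hχ : χ ∈ Irr G) (hψ : ψ ∈ Irr G)
    (h : ψ ∉ block 𝔪 χ) : T p χ ψ = 0 := by
  obtain ⟨K, X, hXinj, hXr, h1, h2⟩ := Col_main G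
  set J : Finset (Fin K) := Finset.univ.filter (fun i => X i ∈ block 𝔪 χ) with hJdef
  have hJ : ∀ i, i ∈ J ↔ X i ∈ block 𝔪 χ := fun i => by simp [hJdef]
  have hXI : ∀ i, X i ∈ Irr G := fun i => by rw [← hXr]; exact ⟨i, rfl⟩
  have hlim := Lim_main p hp 𝔪 h𝔪 hp𝔪 χ hχ X hXr h1 h2 J hJ
  have hχB : χ ∈ block 𝔪 χ := ⟨hχ, fun g => ⟨0, 𝔪.zero_mem, by simp⟩⟩
  obtain ⟨i0, hi0⟩ : ∃ i, X i = χ := by
    have : χ ∈ Set.range X := by rw [hXr]; exact hχ
    exact this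
  obtain ⟨Kf, hKf⟩ : ∃ Kf : G → G → ℂ, ∀ x y, Kf x y = ∑ i ∈ J, X i x * X i y⁻¹ :=
    ⟨_, fun _ _ => rfl⟩
  have ha : ∀ g, ∑ x, Kf g x * χ x = (Nat.card G : ℂ) * χ g := by
    intro g
    have e1 : ∑ x, Kf g x * χ x = ∑ i ∈ J, X i g * ∑ x, χ x * X i x⁻¹ := by
      simp only [hKf, Finset.sum_mul, Finset.mul_sum]
      rw [Finset.sum_comm]
      refine Finset.sum_congr rfl fun i _ => Finset.sum_congr rfl fun x _ => ?_
      ring
    rw [e1, Finset.sum_eq_single i0]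
    · rw [(Col_row χ (X i0) hχ (hXI i0)).1 hi0.symm, hi0]
      ring
    · intro i _ hi
      have hne : χ ≠ X i := by
        rw [← hi0]
        exact fun e => hi (hXinj e.symm)
      rw [(Col_row χ (X i) hχ (hXI i)).2 hne, mul_zero]
    · intro hn
      exact absurd ((hJ i0).mpr (by rw [hi0]; exact hχB)) hn
  have hb : ∀ x, ∑ g, Kf g x * ψ g⁻¹ = 0 := by
    intro x
    have e1 : ∑ g, Kf g x * ψ g⁻¹ = ∑ i ∈ J, X i x⁻¹ * ∑ g, X i g * ψ g⁻¹ := by
      simp only [hKf, Finset.sum_mul, Finset.mul_sum]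
      rw [Finset.sum_comm]
      refine Finset.sum_congr rfl fun i _ => Finset.sum_congr rfl fun x _ => ?_
      ring
    rw [e1]
    refine Finset.sum_eq_zero fun i hi => ?_
    have hne : X i ≠ ψ := fun e => h (e ▸ (hJ i).mp hi)
    rw [(Col_row (X i) ψ (hXI i) hψ).2 hne, mul_zero]
  set R : Finset G := Finset.univ.filter (fun g => ¬ p ∣ orderOf g) with hR
  have hRm : ∀ g, g ∈ R ↔ ¬ p ∣ orderOf g := fun g => by simp [hR]
  have hT : T p χ ψ = ∑ g ∈ R, χ g * ψ g⁻¹ := rfl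
  have hsx : ∀ g ∈ R, ∑ x, Kf g x * χ x = ∑ x ∈ R, Kf g x * χ x := by
    intro g hg
    symm
    refine Finset.sum_subset (Finset.subset_univ _) fun x _ hx => ?_
    have hx' : p ∣ orderOf x := by
      by_contra hc
      exact hx ((hRm x).mpr hc)
    rw [hKf, (hlim g x ((hRm g).mp hg) hx').1, zero_mul]
  have hsg : ∀ x ∈ R, ∑ g, Kf g x * ψ g⁻¹ = ∑ g ∈ R, Kf g x * ψ g⁻¹ := by
    intro x hx
    symm
    refine Finset.sum_subset (Finset.subset_univ _) fun g _ hg => ?_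
    have hg' : p ∣ orderOf g := by
      by_contra hc
      exact hg ((hRm g).mpr hc)
    rw [hKf, (hlim x g ((hRm x).mp hx) hg').2, zero_mul]
  have hcard : (Nat.card G : ℂ) ≠ 0 := by
    have : Nat.card G ≠ 0 := Nat.card_pos.ne'
    exact_mod_cast this
  have key : (Nat.card G : ℂ) * T p χ ψ = 0 := by
    calc (Nat.card G : ℂ) * T p χ ψ = ∑ g ∈ R, ((Nat.card G : ℂ) * χ g) * ψ g⁻¹ := by
          rw [hT, Finset.mul_sum]
          exact Finset.sum_congr rfl fun g _ => by ring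
      _ = ∑ g ∈ R, (∑ x ∈ R, Kf g x * χ x) * ψ g⁻¹ := by
          refine Finset.sum_congr rfl fun g hg => ?_
          rw [← ha, hsx g hg]
      _ = ∑ x ∈ R, χ x * ∑ g ∈ R, Kf g x * ψ g⁻¹ := by
          simp only [Finset.sum_mul, Finset.mul_sum]
          rw [Finset.sum_comm]
          refine Finset.sum_congr rfl fun x _ => Finset.sum_congr rfl fun g _ => ?_
          ring
      _ = 0 := by
          refine Finset.sum_eq_zero fun x hx => ?_
          rw [← hsg x hx, hb x, mul_zero]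
  rcases mul_eq_zero.mp key with h3 | h3
  · exact absurd h3 hcard
  · exact h3

end Pool.Agent.KBL
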