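import Pool.Agent.KBL.Orth
import Pool.Agent.KB.Syl

/-! The matrix of contributions is not zero modulo `p` up to the degrees: for every `ψ` some `χ` in the
block has `A p χ ψ ∉ 𝔪`. -/

namespace Pool.Agent.KBL

open Pool.Agent.KB Pool.Agent.KB.ContrAux

/-- HINT: for a subgroup `P` the number `(1/|P|) ∑_{h ∈ P} χ h` is a natural number (dimension of
the fixed points: `Representation.card_inv_mul_sum_char_eq_finrank` for the restriction of `ρ` to
`P`). -/
theorem NZ_int {G : Type} [Group G] [Fintype G] (P : Subgroup G) [Fintype P] (χ : G → ℂ)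
    (hχ : χ ∈ Irr G) : ∃ n : ℕ, ∑ h : P, χ (h : G) = (Nat.card P : ℂ) * n := by
  obtain ⟨n, ρ, hρ, rfl⟩ := hχ
  have h0 : (Nat.card P : ℂ) ≠ 0 := by exact_mod_cast (Nat.card_pos (α := P)).ne'
  letI : Invertible (Nat.card P : ℂ) := invertibleOfNonzero h0
  let σ : Representation ℂ P (Fin n → ℂ) := ρ.comp P.subtype
  have h := Representation.card_inv_mul_sum_char_eq_finrank σ
  refine ⟨Module.finrank ℂ (Representation.invariants σ), ?_⟩
  rw [← h, ← mul_assoc, mul_inv_cancel₀ h0, one_mul]
  rfl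

/-- HINT: `P` a Sylow `p`-subgroup, `X` the enumeration of `Col_main`, `a i` the number of `NZ_int`
for `X i`, `φ g = ∑ i, a i * X i g⁻¹`. By column orthogonality `|P| φ g = ∑_{h ∈ P} ∑ i X i h X i g⁻¹`
is `0` for `g ≠ 1` `p`-regular (not conjugate to an element of `P`: orders) and `|G|` for `g = 1`. Put
`X' i g = X i g⁻¹` (complex conjugates are again irreducible characters; or avoid this by using
`∑_{h ∈ P} X i h = ∑_{h ∈ P} X i h⁻¹` and `φ g = ∑ i, a i * X i g`, `|P| φ g = ∑_h ∑_i X i g X i h⁻¹`).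
Then `∑ i, a i * T p (X i) ψ = ∑_{g reg} φ g ψ g⁻¹ = φ 1 ψ 1 = n' ψ 1`, with `n' = |G|/|P|`, so
`∑ i, a i * A p (X i) ψ = n'` by `T_eq`, not in `𝔪` (`InM_int`). So some `A p (X i) ψ ∉ 𝔪`, and then
`T p (X i) ψ ≠ 0`, so `ψ ∈ block 𝔪 (X i)` by `Orth_main`, and `X i ∈ block 𝔪 ψ` by symmetry
(`SameBlock` is symmetric). -/
theorem NZ_main {G : Type} [Group G] [Fintype G] (p : ℕ) (hp : p.Prime) (𝔪 : Ideal AInt)
    (h𝔪 : 𝔪.IsMaximal) (hp𝔪 : (p : AInt) ∈ 𝔪) (ψ : G → ℂ) (hψ : ψ ∈ Irr G) :
    ∃ χ ∈ block 𝔪 ψ, ¬ InM 𝔪 (A p χ ψ) := by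
  classical
  haveI : Fact p.Prime := ⟨hp⟩
  obtain ⟨K, X, -, hXr, h1, h2⟩ := Col_main G
  have hX : ∀ i, X i ∈ Irr G := fun i => hXr ▸ Set.mem_range_self i
  let P : Sylow p G := default
  letI : Fintype (P : Subgroup G) := Fintype.ofFinite _
  have hP0 : (Nat.card (P : Subgroup G) : ℂ) ≠ 0 := by
    exact_mod_cast (Nat.card_pos (α := (P : Subgroup G))).ne'
  choose a ha using fun i => NZ_int (P : Subgroup G) (X i) (hX i)
  have ha' : ∀ i, ∑ h : (P : Subgroup G), X i ((h : G)⁻¹) = (Nat.card (P : Subgroup G) : ℂ) * a i := by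
    intro i
    rw [← ha i]
    exact Fintype.sum_equiv (Equiv.inv _) _ _ (fun h => rfl)
  obtain ⟨nψ, hn, hn1⟩ := irr_deg hψ
  have hψ1 : ψ 1 ≠ 0 := by
    rw [hn1]
    exact_mod_cast hn.ne'
  -- the inner sums over the Sylow subgroup
  have hin : ∀ g : G, ¬ p ∣ orderOf g → ∑ h : (P : Subgroup G), ∑ i, X i g * X i ((h : G)⁻¹) =
      if g = 1 then (Nat.card G : ℂ) else 0 := by
    intro g hg
    have hconj : ∀ h : (P : Subgroup G), IsConj g (h : G) → g = 1 ∧ (h : G) = 1 := by
      intro h hgh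
      obtain ⟨k, hk⟩ := (IsPGroup.iff_orderOf.1 P.isPGroup') h
      have ho : orderOf (h : G) = p ^ k := by rw [← hk]; exact Subgroup.orderOf_coe h
      have hog := orderOf_conj hgh
      have hk0 : k = 0 := by
        by_contra hne
        apply hg
        rw [hog, ho]
        exact dvd_pow_self p hne
      rw [hk0, pow_zero] at ho
      exact ⟨orderOf_eq_one_iff.1 (hog.trans ho), orderOf_eq_one_iff.1 ho⟩
    split_ifs with hg1
    · subst hg1
      rw [Finset.sum_eq_single (1 : (P : Subgroup G))]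
      · rw [h2 1 (((1 : (P : Subgroup G)) : G)) (by rw [Subgroup.coe_one])]
        have hc : Nat.card {x : G // IsConj 1 x} = 1 := by
          rw [Nat.card_eq_one_iff_unique]
          refine ⟨⟨fun x y => ?_⟩, ⟨⟨1, IsConj.refl 1⟩⟩⟩
          apply Subtype.ext
          have hx := isConj_one_right.1 x.2
          have hy := isConj_one_right.1 y.2
          rw [hx, hy]
        rw [hc]
        simp
      · intro h _ hne
        apply h1
        intro hcon
        exact hne (Subtype.ext (hconj h hcon).2)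
      · intro hcon
        exact absurd (Finset.mem_univ _) hcon
    · refine Finset.sum_eq_zero fun h _ => h1 _ _ ?_
      intro hcon
      exact hg1 (hconj h hcon).1
  -- the combination
  have hsum : ∑ i, (a i : ℂ) * T p (X i) ψ = ψ 1 * ((P : Subgroup G).index : ℂ) := by
    have hmul : (Nat.card (P : Subgroup G) : ℂ) * ∑ i, (a i : ℂ) * T p (X i) ψ =
        (Nat.card G : ℂ) * ψ 1 := by
      calc (Nat.card (P : Subgroup G) : ℂ) * ∑ i, (a i : ℂ) * T p (X i) ψ
          = ∑ i, (∑ h : (P : Subgroup G), X i ((h : G)⁻¹)) * T p (X i) ψ := by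
            rw [Finset.mul_sum]
            refine Finset.sum_congr rfl fun i _ => ?_
            rw [ha' i, mul_assoc]
        _ = ∑ i, ∑ g : G with ¬ p ∣ orderOf g, ∑ h : (P : Subgroup G),
              ψ g⁻¹ * (X i g * X i ((h : G)⁻¹)) := by
            refine Finset.sum_congr rfl fun i _ => ?_
            unfold T
            rw [Finset.mul_sum]
            refine Finset.sum_congr rfl fun g _ => ?_
            rw [Finset.sum_mul]
            refine Finset.sum_congr rfl fun h _ => ?_
            ring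
        _ = ∑ g : G with ¬ p ∣ orderOf g, ψ g⁻¹ *
              ∑ h : (P : Subgroup G), ∑ i, X i g * X i ((h : G)⁻¹) := by
            rw [Finset.sum_comm]
            refine Finset.sum_congr rfl fun g _ => ?_
            rw [Finset.sum_comm, Finset.mul_sum]
            refine Finset.sum_congr rfl fun h _ => ?_
            rw [Finset.mul_sum]
        _ = ∑ g : G with ¬ p ∣ orderOf g, ψ g⁻¹ * (if g = 1 then (Nat.card G : ℂ) else 0) := by
            refine Finset.sum_congr rfl fun g hg => ?_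
            rw [hin g (Finset.mem_filter.1 hg).2]
        _ = (Nat.card G : ℂ) * ψ 1 := by
            rw [Finset.sum_eq_single (1 : G)]
            · rw [if_pos rfl, inv_one, mul_comm]
            · intro g _ hg
              rw [if_neg hg, mul_zero]
            · intro hcon
              exfalso
              apply hcon
              refine Finset.mem_filter.2 ⟨Finset.mem_univ _, ?_⟩
              rw [orderOf_one]
              exact fun hd => hp.one_lt.ne' (Nat.dvd_one.1 hd)
    have hidx : (Nat.card G : ℂ) = (Nat.card (P : Subgroup G) : ℂ) * ((P : Subgroup G).index : ℂ) := by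
      rw [← Subgroup.card_mul_index (P : Subgroup G)]
      push_cast
      rfl
    rw [hidx] at hmul
    apply mul_left_cancel₀ hP0
    rw [hmul]
    ring
  have hsumA : ∑ i, (a i : ℂ) * A p (X i) ψ = ((P : Subgroup G).index : ℂ) := by
    apply mul_left_cancel₀ hψ1
    rw [← hsum, Finset.mul_sum]
    refine Finset.sum_congr rfl fun i _ => ?_
    rw [T_eq (hX i) hψ]
    ring
  have hex : ∃ i, ¬ InM 𝔪 (A p (X i) ψ) := by
    by_contra hcon
    push Not at hcon
    have hm : InM 𝔪 (((P : Subgroup G).index : ℤ) : ℂ) := by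
      have : (((P : Subgroup G).index : ℤ) : ℂ) = ∑ i, (a i : ℂ) * A p (X i) ψ := by
        rw [hsumA]
        push_cast
        rfl
      rw [this]
      exact InM_sum _ _ fun i _ => InM_mul (isIntegral_nat _) (hcon i)
    have hd := InM_int hp h𝔪 hp𝔪 hm
    exact P.not_dvd_index (by exact_mod_cast hd)
  obtain ⟨i, hi⟩ := hex
  refine ⟨X i, ?_, hi⟩
  by_contra hb
  have hb' : ψ ∉ block 𝔪 (X i) := by
    intro hcon
    apply hb
    refine ⟨hX i, fun g => ?_⟩
    obtain ⟨c, hc, hc'⟩ := hcon.2 g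
    refine ⟨-c, 𝔪.neg_mem hc, ?_⟩
    push_cast
    rw [hc']
    ring
  have hT := Orth_main p hp 𝔪 h𝔪 hp𝔪 (X i) ψ (hX i) hψ hb'
  rw [T_eq (hX i) hψ] at hT
  rcases mul_eq_zero.1 hT with h | h
  · exact hψ1 h
  · apply hi
    rw [h]
    exact InM_zero 𝔪

end Pool.Agent.KBL
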