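import Pool.Agent.KB.Contr

/-! The matrix of contributions modulo `p`: it is `c v vᵀ`, with two more properties. -/

namespace Pool.Agent.KBL

open Pool.Agent.KB Pool.Agent.KB.ContrAux

namespace CDAux

variable {G : Type} [Group G] [Fintype G]

theorem T_symm (p : ℕ) (χ ψ : G → ℂ) : T p χ ψ = T p ψ χ := by
  classical
  unfold T
  refine Finset.sum_bij (fun g _ => g⁻¹) ?_ ?_ ?_ ?_
  · intro g hg
    rw [Finset.mem_filter] at hg ⊢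
    exact ⟨Finset.mem_univ _, by rw [orderOf_inv]; exact hg.2⟩
  · intro g _ h _ hgh
    exact inv_injective hgh
  · intro g hg
    rw [Finset.mem_filter] at hg
    refine ⟨g⁻¹, ?_, inv_inv g⟩
    rw [Finset.mem_filter]
    exact ⟨Finset.mem_univ _, by rw [orderOf_inv]; exact hg.2⟩
  · intro g _
    rw [inv_inv, mul_comm]

theorem mem_self {𝔪 : Ideal AInt} {χ₀ : G → ℂ} (hχ₀ : χ₀ ∈ Irr G) : χ₀ ∈ block 𝔪 χ₀ :=
  ⟨hχ₀, fun g => ⟨0, 𝔪.zero_mem, by simp⟩⟩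

/-- cancelling an integer prime to `p` -/
theorem InM_cancel {𝔪 : Ideal AInt} {p : ℕ} (hp : p.Prime) (hp𝔪 : (p : AInt) ∈ 𝔪) {n : ℤ}
    (hn : ¬ (p : ℤ) ∣ n) {z : ℂ} (hz : IsIntegral ℤ z) (h : InM 𝔪 ((n : ℂ) * z)) : InM 𝔪 z := by
  have hcop : IsCoprime (p : ℤ) n :=
    (Nat.prime_iff_prime_int.mp hp).coprime_iff_not_dvd.mpr hn
  obtain ⟨a, b, hab⟩ := hcop
  have hab' : (a : ℂ) * p + (b : ℂ) * n = 1 := by exact_mod_cast hab
  have e : z = ((a : ℂ) * z) * (p : ℂ) + (b : ℂ) * ((n : ℂ) * z) := by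
    linear_combination (-z) * hab'
  rw [e]
  refine InM_add (InM_mul ((isIntegral_int a).mul hz) ⟨(p : AInt), hp𝔪, by simp⟩)
    (InM_mul (isIntegral_int b) h)

theorem InM_p {𝔪 : Ideal AInt} {p : ℕ} (hp𝔪 : (p : AInt) ∈ 𝔪) {n : ℤ}
    (hn : (p : ℤ) ∣ n) {z : ℂ} (hz : IsIntegral ℤ z) : InM 𝔪 ((n : ℂ) * z) := by
  obtain ⟨t, rfl⟩ := hn
  have e : (((p : ℤ) * t : ℤ) : ℂ) * z = ((t : ℂ) * z) * (p : ℂ) := by push_cast; ring
  rw [e]
  exact InM_mul ((isIntegral_int t).mul hz) ⟨(p : AInt), hp𝔪, by simp⟩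

theorem setup (p : ℕ) (hp : p.Prime) (𝔪 : Ideal AInt) (χ₀ : G → ℂ) :
    ∃ (n' : ℕ) (c : (G → ℂ) → ℕ), ¬ p ∣ n' ∧ (∀ ψ ∈ block 𝔪 χ₀, 0 < c ψ) ∧
      (∀ χ ∈ block 𝔪 χ₀, ∀ ψ ∈ block 𝔪 χ₀, (n' : ℂ) * ((p : ℂ) ^ defect p (block 𝔪 χ₀) /
        (Nat.card G : ℂ) * T p χ ψ) = c ψ * A p χ ψ) ∧
      (0 < defect p (block 𝔪 χ₀) → ∃ ψ ∈ block 𝔪 χ₀, ¬ p ∣ c ψ) := by
  classical
  set B := block 𝔪 χ₀ with hB
  set a := padicValNat p (Nat.card G) with ha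
  set d := defect p B with hd
  set n' : ℕ := Nat.card G / p ^ a with hn'
  have hG0 : Nat.card G ≠ 0 := Nat.card_pos.ne'
  have hpa : p ^ a ∣ Nat.card G := pow_padicValNat_dvd
  have hGn : p ^ a * n' = Nat.card G := Nat.mul_div_cancel' hpa
  have hn'p : ¬ p ∣ n' := by
    intro hcon
    obtain ⟨c, hc⟩ := hcon
    have : p ^ (a + 1) ∣ Nat.card G := ⟨c, by rw [← hGn, hc, pow_succ]; ring⟩
    have hle := (padicValNat_dvd_iff_le (hp := ⟨hp⟩) hG0).mp this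
    rw [← ha] at hle
    omega
  have hn'0 : n' ≠ 0 := by
    intro h0
    rw [h0] at hn'p
    exact hn'p (dvd_zero p)
  have hBIrr : ∀ χ ∈ B, χ ∈ Irr G := fun χ h => h.1
  have hdef : ∀ χ ∈ B, ∃ n : ℕ, χ 1 = n ∧ p ^ a ∣ p ^ d * n := by
    have hmem : a ∈ {d : ℕ | ∀ χ ∈ B, ∃ n : ℕ, χ 1 = n ∧
        p ^ padicValNat p (Nat.card G) ∣ p ^ d * n} := by
      intro χ hχ
      obtain ⟨n, _, hn⟩ := irr_deg (hBIrr χ hχ)
      exact ⟨n, hn, Dvd.intro n rfl⟩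
    exact Nat.sInf_mem ⟨a, hmem⟩
  have hc : ∀ ψ ∈ B, ∃ c : ℕ, 0 < c ∧ (p : ℂ) ^ d * ψ 1 = (p : ℂ) ^ a * c := by
    intro ψ hψ
    obtain ⟨n, hn, c, hc⟩ := hdef ψ hψ
    obtain ⟨n2, hn2, hn3⟩ := irr_deg (hBIrr ψ hψ)
    have hnn : n = n2 := by
      rw [hn] at hn3
      exact_mod_cast hn3
    refine ⟨c, ?_, ?_⟩
    · rcases Nat.eq_zero_or_pos c with h0 | h0
      · rw [h0, mul_zero] at hc
        have := Nat.mul_pos (Nat.pow_pos hp.pos (n := d)) (hnn ▸ hn2)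
        omega
      · exact h0
    · rw [hn]
      exact_mod_cast hc
  have hpC : (p : ℂ) ≠ 0 := by exact_mod_cast hp.pos.ne'
  have hn'C : (n' : ℂ) ≠ 0 := by exact_mod_cast hn'0
  have hGC : (Nat.card G : ℂ) = (p : ℂ) ^ a * n' := by rw [← hGn]; push_cast; ring
  choose! c hc0 hcψ using hc
  refine ⟨n', c, hn'p, hc0, ?_, ?_⟩
  · intro χ hχ ψ hψ
    have h1 := hcψ ψ hψ
    rw [T_eq (hBIrr χ hχ) (hBIrr ψ hψ), hGC]
    have hpa0 : (p : ℂ) ^ a ≠ 0 := pow_ne_zero _ hpC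
    field_simp
    linear_combination (A p χ ψ) * h1
  · intro hd0
    by_contra hcon
    push Not at hcon
    have hlt : d - 1 < defect p B := by omega
    have hnm := Nat.notMem_of_lt_sInf hlt
    apply hnm
    intro χ hχ
    obtain ⟨n, hn0, hn⟩ := irr_deg (hBIrr χ hχ)
    refine ⟨n, hn, ?_⟩
    obtain ⟨t, ht⟩ := hcon χ hχ
    have h1 := hcψ χ hχ
    rw [hn] at h1
    have h2 : p ^ d * n = p ^ a * c χ := by exact_mod_cast h1
    refine ⟨t, ?_⟩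
    have h3 : p ^ d = p ^ (d - 1) * p := by
      rw [← pow_succ]
      congr 1
      omega
    rw [h3, ht] at h2
    have h4 : p * (p ^ (d - 1) * n) = p * (p ^ a * t) := by
      calc p * (p ^ (d - 1) * n) = p ^ (d - 1) * p * n := by ring
        _ = p ^ a * (p * t) := h2
        _ = p * (p ^ a * t) := by ring
    exact Nat.eq_of_mul_eq_mul_left hp.pos h4

end CDAux

open CDAux

open Classical in
/-- HINT: `B` the block, `|G| = p^a n'`, `d` the defect, `d ≥ 1`; `p^d ψ(1) = p^a c_ψ` for `ψ ∈ B`,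
`n' val χ ψ = c_ψ A χ ψ` (`hvalA` in the proof of `Contr_main`), `val` symmetric (`irr_inv`, the values
are integers by `Contr_main`). (1) By minimality of the defect some `ψs ∈ B` has `p ∤ c_ψs`.
(2) `hA` gives `χs ∈ B` with `A χs ψ ∉ 𝔪` for ONE `ψ ∈ B`, so for all (`A_sub`). Then
`n' val χs ψs = c_ψs A χs ψs ∉ 𝔪`, and by symmetry it is `c_χs A ψs χs`, so `p ∤ c_χs` and
`u := val χs χs` is not divisible by `p`. Put `v i = val χs (χ i)`, `c` an inverse of `u` modulo `p`.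
Minors (`Contr_main`): `u m_ij ≡ v i v j`. (3) `p ∣ v i ↔ p ∣ c_{χ i}`. If `p ∤ ∑ x i v i`: it is
`∑ x i val (χ i) χs = (c_χs / n') ∑ x i A (χ i) χs`, so `∑ x i A (χ i) χs ∉ 𝔪`, and
`∑ x i A (χ i) (χ j) ∉ 𝔪` by `A_sub` (linear combination), so `≠ 0`, and `c_{χ j} ≠ 0`. (4) If `p ∣ v i`
then `p ∣ c_{χ i}`; `n' val (χ i) χs = c_χs A (χ i) χs ∈ 𝔪` so `A (χ i) χs ∈ 𝔪` and
`A (χ i) (χ i) ∈ 𝔪`; `n' m_ii = c A` with `p ∣ c`, `A ∈ 𝔪`, so `p ^ 2 ∣ m_ii`, and `m_ii > 0`. -/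
theorem CD_main {G : Type} [Group G] [Fintype G] (p : ℕ) (hp : p.Prime) (𝔪 : Ideal AInt)
    (h𝔪 : 𝔪.IsMaximal) (hp𝔪 : (p : AInt) ∈ 𝔪) (χ₀ : G → ℂ) (hχ₀ : χ₀ ∈ Irr G)
    (hd : 0 < defect p (block 𝔪 χ₀)) (hA : ∃ χ ∈ block 𝔪 χ₀, ¬ InM 𝔪 (A p χ χ₀))
    {k : ℕ} (χ : Fin k → G → ℂ) (hχ : ∀ i, χ i ∈ block 𝔪 χ₀) (m : Fin k → Fin k → ℤ)
    (hm : ∀ i j, (m i j : ℂ) = (p : ℂ) ^ defect p (block 𝔪 χ₀) / (Nat.card G : ℂ) *
          ∑ g : G with ¬ p ∣ orderOf g, χ i g * χ j g⁻¹) :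
    ∃ (c : ℤ) (v : Fin k → ℤ), ¬ (p : ℤ) ∣ c ∧
      (∀ i j, (p : ℤ) ∣ m i j - c * v i * v j) ∧
      (∀ x : Fin k → ℤ, ¬ (p : ℤ) ∣ ∑ i, x i * v i → ∀ j, ∑ i, x i * m i j ≠ 0) ∧
      (∀ i, (p : ℤ) ∣ v i → (p : ℤ) + 1 ≤ m i i) := by
  have hpP : Prime (p : ℤ) := Nat.prime_iff_prime_int.mp hp
  obtain ⟨n', c, hn', hc0, hval, hex⟩ := setup p hp 𝔪 χ₀
  obtain ⟨M, hM1, hM2, -, hM4⟩ := Contr_main p hp 𝔪 h𝔪 hp𝔪 χ₀ hχ₀
  set B := block 𝔪 χ₀ with hB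
  have hBIrr : ∀ χ ∈ B, χ ∈ Irr G := fun χ h => h.1
  have hn'Z : ¬ (p : ℤ) ∣ (n' : ℤ) := by
    intro h
    exact hn' (by exact_mod_cast h)
  -- values
  have hMT : ∀ χ ∈ B, ∀ ψ ∈ B, (M χ ψ : ℂ) =
      (p : ℂ) ^ defect p B / (Nat.card G : ℂ) * T p χ ψ := by
    intro χ hχ ψ hψ
    exact hM1 χ hχ ψ hψ
  have hMv : ∀ χ ∈ B, ∀ ψ ∈ B, (n' : ℂ) * (M χ ψ : ℂ) = c ψ * A p χ ψ := by
    intro χ hχ ψ hψ
    rw [hMT χ hχ ψ hψ]
    exact hval χ hχ ψ hψ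
  have hMs : ∀ χ ∈ B, ∀ ψ ∈ B, M χ ψ = M ψ χ := by
    intro χ hχ ψ hψ
    have h1 := hMT χ hχ ψ hψ
    have h2 := hMT ψ hψ χ hχ
    rw [T_symm, ← h2] at h1
    exact_mod_cast h1
  have hmM : ∀ i j, m i j = M (χ i) (χ j) := by
    intro i j
    have h1 := hm i j
    have h2 := hM1 (χ i) (hχ i) (χ j) (hχ j)
    rw [← h2] at h1
    exact_mod_cast h1
  have hint : ∀ χ ∈ B, ∀ ψ ∈ B, IsIntegral ℤ (A p χ ψ) := fun χ hχ ψ hψ =>
    A_integral (hBIrr χ hχ) (hBIrr ψ hψ)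
  -- the two special characters
  obtain ⟨ψs, hψs, hcψs⟩ := hex hd
  obtain ⟨χs, hχs, hAs⟩ := hA
  have hAall : ∀ ψ ∈ B, ¬ InM 𝔪 (A p χs ψ) := by
    intro ψ hψ h
    apply hAs
    have h1 := A_sub (p := p) (hBIrr χs hχs) (mem_self (𝔪 := 𝔪) hχ₀) hψ
    have e : A p χs χ₀ = (A p χs χ₀ - A p χs ψ) + A p χs ψ := by ring
    rw [e]
    exact InM_add h1 h
  have hprod : ∀ ψ ∈ B, ¬ p ∣ c ψ → ¬ InM 𝔪 ((n' : ℂ) * (M χs ψ : ℂ)) := by
    intro ψ hψ hcψ h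
    rw [hMv χs hχs ψ hψ] at h
    apply hAall ψ hψ
    refine InM_cancel hp hp𝔪 (n := (c ψ : ℤ)) ?_ (hint χs hχs ψ hψ) ?_
    · intro h2
      exact hcψ (by exact_mod_cast h2)
    · push_cast
      exact h
  have hcχs : ¬ p ∣ c χs := by
    intro h
    apply hprod ψs hψs hcψs
    rw [hMs χs hχs ψs hψs, hMv ψs hψs χs hχs]
    have h2 := InM_p (𝔪 := 𝔪) (p := p) hp𝔪 (n := (c χs : ℤ)) (by exact_mod_cast h)
      (hint ψs hψs χs hχs)
    push_cast at h2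
    exact h2
  have hcχsZ : ¬ (p : ℤ) ∣ (c χs : ℤ) := by
    intro h
    exact hcχs (by exact_mod_cast h)
  have hdvdM : ∀ z : ℤ, (p : ℤ) ∣ z → InM 𝔪 ((n' : ℂ) * (z : ℂ)) := by
    intro z hz
    have h2 := InM_p (𝔪 := 𝔪) (p := p) hp𝔪 (n := z) hz (isIntegral_nat n')
    rw [mul_comm]
    exact h2
  have hu : ¬ (p : ℤ) ∣ M χs χs := fun h => hprod χs hχs hcχs (hdvdM _ h)
  -- the inverse of `u`
  have hcop : IsCoprime (p : ℤ) (M χs χs) := hpP.coprime_iff_not_dvd.mpr hu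
  obtain ⟨a, b, hab⟩ := hcop
  refine ⟨b, fun i => M χs (χ i), ?_, ?_, ?_, ?_⟩
  · intro h
    obtain ⟨t, ht⟩ := h
    have : (p : ℤ) ∣ 1 := by
      rw [← hab, ht]
      exact ⟨a + t * M χs χs, by ring⟩
    exact hpP.not_dvd_one this
  · intro i j
    rw [hmM]
    have h1 := hM2 χs hχs (χ i) (hχ i) χs hχs (χ j) (hχ j)
    rw [hMs (χ i) (hχ i) χs hχs] at h1
    obtain ⟨t, ht⟩ := h1
    refine ⟨a * M (χ i) (χ j) + b * t, ?_⟩
    linear_combination (-(M (χ i) (χ j))) * hab + b * ht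
  · intro x hx j hzero
    -- the sum with `χs`
    have hW : ¬ InM 𝔪 (∑ i, (x i : ℂ) * A p (χ i) χs) := by
      intro h
      apply hx
      have h1 : (n' : ℂ) * ((∑ i, x i * M χs (χ i) : ℤ) : ℂ) =
          (c χs : ℂ) * ∑ i, (x i : ℂ) * A p (χ i) χs := by
        push_cast
        rw [Finset.mul_sum, Finset.mul_sum]
        refine Finset.sum_congr rfl fun i _ => ?_
        have h2 := hMv (χ i) (hχ i) χs hχs
        rw [hMs χs hχs (χ i) (hχ i)]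
        linear_combination (x i : ℂ) * h2
      have h3 : InM 𝔪 (((n' : ℤ) * (∑ i, x i * M χs (χ i)) : ℤ) : ℂ) := by
        have h4 : (((n' : ℤ) * (∑ i, x i * M χs (χ i)) : ℤ) : ℂ) =
            (c χs : ℂ) * ∑ i, (x i : ℂ) * A p (χ i) χs := by
          rw [← h1]
          push_cast
          ring
        rw [h4]
        exact InM_mul (isIntegral_nat _) h
      have h5 := InM_int hp h𝔪 hp𝔪 h3
      exact (hpP.dvd_or_dvd h5).resolve_left hn'Z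
    have hWj : ¬ InM 𝔪 (∑ i, (x i : ℂ) * A p (χ i) (χ j)) := by
      intro h
      apply hW
      have e : ∑ i, (x i : ℂ) * A p (χ i) χs = ∑ i, (x i : ℂ) * A p (χ i) (χ j) +
          ∑ i, (x i : ℂ) * (A p (χ i) χs - A p (χ i) (χ j)) := by
        rw [← Finset.sum_add_distrib]
        exact Finset.sum_congr rfl fun i _ => by ring
      rw [e]
      refine InM_add h (InM_sum _ _ fun i _ => ?_)
      exact InM_mul (isIntegral_int _) (A_sub (hBIrr (χ i) (hχ i)) hχs (hχ j))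
    apply hWj
    have h1 : (n' : ℂ) * ((∑ i, x i * m i j : ℤ) : ℂ) =
        (c (χ j) : ℂ) * ∑ i, (x i : ℂ) * A p (χ i) (χ j) := by
      push_cast
      rw [Finset.mul_sum, Finset.mul_sum]
      refine Finset.sum_congr rfl fun i _ => ?_
      have h2 := hMv (χ i) (hχ i) (χ j) (hχ j)
      rw [hmM]
      linear_combination (x i : ℂ) * h2
    rw [hzero] at h1
    have h2 : (c (χ j) : ℂ) ≠ 0 := by exact_mod_cast (hc0 (χ j) (hχ j)).ne'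
    have h3 : ∑ i, (x i : ℂ) * A p (χ i) (χ j) = 0 := by
      have h4 : (c (χ j) : ℂ) * ∑ i, (x i : ℂ) * A p (χ i) (χ j) = 0 := by
        rw [← h1]
        simp
      exact (mul_eq_zero.mp h4).resolve_left h2
    rw [h3]
    exact InM_zero 𝔪
  · intro i hvi
    have hvi' : (p : ℤ) ∣ M χs (χ i) := hvi
    -- `p` divides the number of `χ i`
    have h1 : p ∣ c (χ i) := by
      by_contra h
      exact hprod (χ i) (hχ i) h (hdvdM _ hvi')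
    obtain ⟨t, ht⟩ := h1
    -- `A (χ i) χs ∈ 𝔪`
    have h2 : InM 𝔪 (A p (χ i) χs) := by
      refine InM_cancel hp hp𝔪 (n := (c χs : ℤ)) hcχsZ (hint (χ i) (hχ i) χs hχs) ?_
      have h3 := hMv (χ i) (hχ i) χs hχs
      push_cast
      rw [← h3, hMs (χ i) (hχ i) χs hχs]
      exact hdvdM _ hvi'
    have h3 : InM 𝔪 (A p (χ i) (χ i)) := by
      have e : A p (χ i) (χ i) = A p (χ i) χs - (A p (χ i) χs - A p (χ i) (χ i)) := by ring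
      rw [e]
      exact InM_sub h2 (A_sub (hBIrr (χ i) (hχ i)) hχs (hχ i))
    have h4 := hMv (χ i) (hχ i) (χ i) (hχ i)
    rw [ht] at h4
    have hpC : (p : ℂ) ≠ 0 := by exact_mod_cast hp.pos.ne'
    have hpQ : (p : ℚ) ≠ 0 := by exact_mod_cast hp.pos.ne'
    have h5 : (((n' : ℚ) * (M (χ i) (χ i) : ℚ) / p : ℚ) : ℂ) = (t : ℂ) * A p (χ i) (χ i) := by
      push_cast
      field_simp
      rw [h4]
      push_cast
      ring
    have h6 : IsIntegral ℤ ((((n' : ℚ) * (M (χ i) (χ i) : ℚ) / p : ℚ)) : ℂ) := by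
      rw [h5]
      exact (isIntegral_nat t).mul (hint (χ i) (hχ i) (χ i) (hχ i))
    obtain ⟨z, hz⟩ := int_of_integral h6
    have h7 : InM 𝔪 (z : ℂ) := by
      have e : (z : ℂ) = (t : ℂ) * A p (χ i) (χ i) := by
        rw [← h5, hz]
        simp
      rw [e]
      exact InM_mul (isIntegral_nat t) h3
    obtain ⟨w, hw⟩ := InM_int hp h𝔪 hp𝔪 h7
    have h8 : (n' : ℤ) * M (χ i) (χ i) = (p : ℤ) ^ 2 * w := by
      have h9 : (n' : ℚ) * (M (χ i) (χ i) : ℚ) = p * z := by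
        field_simp at hz
        linarith
      rw [hw] at h9
      push_cast at h9
      have h10 : ((n' * M (χ i) (χ i) : ℤ) : ℚ) = (((p : ℤ) ^ 2 * w : ℤ) : ℚ) := by
        push_cast
        linarith
      exact_mod_cast h10
    have h9 : (p : ℤ) ^ 2 ∣ M (χ i) (χ i) := by
      have h10 : (p : ℤ) ^ 2 ∣ (n' : ℤ) * M (χ i) (χ i) := ⟨w, h8⟩
      have h11 : IsCoprime ((p : ℤ) ^ 2) (n' : ℤ) :=
        (hpP.coprime_iff_not_dvd.mpr hn'Z).pow_left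
      exact h11.dvd_of_dvd_mul_left h10
    have h10 : 0 < M (χ i) (χ i) := hM4 (χ i) (hχ i)
    have h11 : (p : ℤ) ^ 2 ≤ M (χ i) (χ i) := Int.le_of_dvd h10 h9
    have h12 : (2 : ℤ) ≤ p := by exact_mod_cast hp.two_le
    rw [hmM]
    nlinarith

end Pool.Agent.KBL
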