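import Pool.Agent.KB.Emb

/-! A class function orthogonal to all irreducible characters is zero. -/

namespace Pool.Agent.KBL

open Pool.Agent.KB

/-- the operator `∑ g, φ g⁻¹ • ρ g` -/
noncomputable def ColA_E {G V : Type} [Group G] [Fintype G] [AddCommGroup V] [Module ℂ V]
    (φ : G → ℂ) (ρ : Representation ℂ G V) : V →ₗ[ℂ] V := ∑ g, φ g⁻¹ • ρ g

theorem ColA_E_apply {G V : Type} [Group G] [Fintype G] [AddCommGroup V] [Module ℂ V]
    (φ : G → ℂ) (ρ : Representation ℂ G V) (v : V) :
    ColA_E φ ρ v = ∑ g, φ g⁻¹ • ρ g v := by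
  simp [ColA_E, LinearMap.sum_apply]

/-- transport to `Fin n → ℂ` -/
theorem ColA_transport {G V : Type} [Group G] [Fintype G] [AddCommGroup V] [Module ℂ V]
    [FiniteDimensional ℂ V] (φ : G → ℂ) (ρ : Representation ℂ G V)
    (h : ∀ ρ' : Representation ℂ G (Fin (Module.finrank ℂ V) → ℂ), ColA_E φ ρ' = 0) :
    ColA_E φ ρ = 0 := by
  let e : V ≃ₗ[ℂ] (Fin (Module.finrank ℂ V) → ℂ) := (Module.finBasis ℂ V).equivFun
  let ρ' : Representation ℂ G (Fin (Module.finrank ℂ V) → ℂ) :=
    { toFun := fun g => e.toLinearMap ∘ₗ ρ g ∘ₗ e.symm.toLinearMap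
      map_one' := by
        apply LinearMap.ext
        intro v
        simp
      map_mul' := by
        intro x y
        apply LinearMap.ext
        intro v
        simp }
  apply LinearMap.ext
  intro v
  have h1 := congrArg (fun f => f (e v)) (h ρ')
  simp only [ColA_E_apply, LinearMap.zero_apply] at h1
  have h2 : ∀ g, ρ' g (e v) = e (ρ g v) := by
    intro g
    change e (ρ g (e.symm (e v))) = _
    rw [LinearEquiv.symm_apply_apply]
  rw [ColA_E_apply, LinearMap.zero_apply]
  apply e.map_eq_zero_iff.mp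
  rw [map_sum, ← h1]
  refine Finset.sum_congr rfl fun g _ => ?_
  rw [map_smul, h2]

theorem ColA_irr {G : Type} [Group G] [Fintype G] (φ : G → ℂ)
    (hφ : ∀ g h : G, IsConj g h → φ g = φ h)
    (h0 : ∀ χ ∈ Irr G, ∑ g, φ g⁻¹ * χ g = 0) (n : ℕ) (ρ : Representation ℂ G (Fin n → ℂ))
    (hρ : ρ.IsIrreducible) : ColA_E φ ρ = 0 := by
  obtain ⟨hdeg, hpos⟩ := Omega_deg ρ hρ
  have := hρ
  have hcomm : ∀ x : G, (ColA_E φ ρ) ∘ₗ ρ x = ρ x ∘ₗ (ColA_E φ ρ) := by
    intro x
    have h1 : (ColA_E φ ρ) * ρ x = ρ x * ColA_E φ ρ := by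
      rw [ColA_E, Finset.sum_mul, Finset.mul_sum]
      refine Fintype.sum_bijective (fun h => x⁻¹ * h * x)
        (((Group.mulLeft_bijective x⁻¹)).comp (Group.mulRight_bijective x) |> fun hb => ?_) _ _ ?_
      · have : (fun h => x⁻¹ * h * x) = (fun h => x⁻¹ * h) ∘ (fun h => h * x) := by
          funext h; simp [mul_assoc]
        rw [this]; exact hb
      · intro h
        have h2 : φ (x⁻¹ * h * x)⁻¹ = φ h⁻¹ := by
          apply hφ
          exact isConj_iff.2 ⟨x, by group⟩
        rw [h2, smul_mul_assoc, mul_smul_comm, ← map_mul, ← map_mul]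
        congr 2
        group
    exact h1
  let S : Representation.IntertwiningMap ρ ρ :=
    { toLinearMap := ColA_E φ ρ
      isIntertwining' := hcomm }
  obtain ⟨c, hc⟩ :=
    (Representation.IsIrreducible.algebraMap_intertwiningMap_bijective_of_isAlgClosed
      (ρ := ρ)).2 S
  have hS : ColA_E φ ρ = algebraMap ℂ (Module.End ℂ (Fin n → ℂ)) c := by
    have := congrArg (fun s : Representation.IntertwiningMap ρ ρ => s.toLinearMap) hc
    have h2 : ColA_E φ ρ = (algebraMap ℂ (Representation.IntertwiningMap ρ ρ) c).toLinearMap :=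
      this.symm
    rw [h2]
    ext v
    simp [Algebra.algebraMap_eq_smul_one]
  have htr : LinearMap.trace ℂ (Fin n → ℂ) (ColA_E φ ρ) = 0 := by
    rw [ColA_E, map_sum, ← h0 ρ.character ⟨n, ρ, hρ, rfl⟩]
    refine Finset.sum_congr rfl fun g _ => ?_
    rw [map_smul]
    rfl
  rw [hS, Algebra.algebraMap_eq_smul_one, map_smul, LinearMap.trace_one, smul_eq_mul] at htr
  have hfin : (Module.finrank ℂ (Fin n → ℂ) : ℂ) ≠ 0 := by exact_mod_cast hpos.ne'
  have hc0 : c = 0 := (mul_eq_zero.mp htr).resolve_right hfin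
  rw [hS, hc0, map_zero]

theorem ColA_all {G : Type} [Group G] [Fintype G] (φ : G → ℂ)
    (hφ : ∀ g h : G, IsConj g h → φ g = φ h)
    (h0 : ∀ χ ∈ Irr G, ∑ g, φ g⁻¹ * χ g = 0) (n : ℕ) :
    ∀ ρ : Representation ℂ G (Fin n → ℂ), ColA_E φ ρ = 0 := by
  induction n using Nat.strong_induction_on with
  | _ n ih =>
    intro ρ
    by_cases hρ : ρ.IsIrreducible
    · exact ColA_irr φ hφ h0 n ρ hρ
    · rcases Nat.eq_zero_or_pos n with rfl | hn
      · apply LinearMap.ext
        intro v
        exact Subsingleton.elim _ _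
      · have hnt : Nontrivial (Fin n → ℂ) := by
          have : Nonempty (Fin n) := ⟨⟨0, hn⟩⟩
          infer_instance
        have hbt : (⊥ : Subrepresentation ρ) ≠ ⊤ := by
          intro h
          have h1 : (⊥ : Submodule ℂ (Fin n → ℂ)) = ⊤ := congrArg Subrepresentation.toSubmodule h
          exact bot_ne_top h1
        obtain ⟨σ, hσ1, hσ2⟩ : ∃ σ : Subrepresentation ρ, σ ≠ ⊥ ∧ σ ≠ ⊤ := by
          by_contra hcon
          push Not at hcon
          apply hρ
          exact { exists_pair_ne := ⟨⊥, ⊤, hbt⟩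
                  eq_bot_or_eq_top := fun a => or_iff_not_imp_left.mpr (hcon a) }
        have hss : Representation.IsSemisimpleRepresentation ρ := by
          have : NeZero (Nat.card G : ℂ) := ⟨by exact_mod_cast Nat.card_pos.ne'⟩
          infer_instance
        obtain ⟨τ, hτ⟩ := hss.exists_isCompl σ
        have key : ∀ κ : Subrepresentation ρ, κ ≠ ⊤ → ∀ v ∈ κ.toSubmodule, ColA_E φ ρ v = 0 := by
          intro κ hκ v hv
          have hlt : Module.finrank ℂ κ.toSubmodule < n := by
            have h1 : κ.toSubmodule < ⊤ := by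
              rw [lt_top_iff_ne_top]
              intro h
              apply hκ
              exact Subrepresentation.toSubmodule_injective h
            have h2 := Submodule.finrank_lt_finrank_of_lt h1
            rw [finrank_top, Module.finrank_fin_fun] at h2
            exact h2
          have h1 := ColA_transport φ κ.toRepresentation (ih _ hlt)
          have h2 := congrArg (fun f => ((f ⟨v, hv⟩ : κ.toSubmodule) : Fin n → ℂ)) h1
          simp only [ColA_E_apply, LinearMap.zero_apply] at h2
          rw [ColA_E_apply]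
          rw [AddSubmonoidClass.coe_finsetSum] at h2
          exact h2
        have hτt : τ ≠ ⊤ := by
          intro h
          apply hσ1
          have := hτ.disjoint.eq_bot
          rw [h, inf_top_eq] at this
          exact this
        apply LinearMap.ext
        intro v
        have hsup : σ.toSubmodule ⊔ τ.toSubmodule = ⊤ := by
          have := hτ.codisjoint.eq_top
          exact congrArg Subrepresentation.toSubmodule this
        have hv : v ∈ σ.toSubmodule ⊔ τ.toSubmodule := by rw [hsup]; exact Submodule.mem_top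
        obtain ⟨u, hu, w, hw, rfl⟩ := Submodule.mem_sup.mp hv
        rw [map_add, key σ hσ2 u hu, key τ hτt w hw]
        simp

/-- HINT: let `z = ∑ g, φ g⁻¹ • g ∈ MonoidAlgebra ℂ G`; it is central. `MonoidAlgebra ℂ G` is a
semisimple module over itself (Maschke, `Mathlib.RepresentationTheory.Maschke`), so `⊤` is the
supremum of the simple submodules `N` (`IsSemisimpleModule`, `sSup_simples_eq_top`). On such an `N`
(finite dimensional over `ℂ`; `Representation.ofModule`, then transport to `Fin n → ℂ`;
`Representation.irreducible_iff_isSimpleModule_asModule`) the map `∑ g, φ g⁻¹ • ρ g` is a scalar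
`c` by Schur's lemma (see the proof of `Omega_int` in `Pool/Agent/KB/Omega.lean`), its trace is
`∑ g, φ g⁻¹ * χ_N g = 0`, so `c = 0`. So `z • N = 0` for all simple `N`, `z • 1 = 0`, `z = 0`. (One can
also use a maximal/minimal argument: if `z ≠ 0` the left ideal generated by `z` contains a simple
submodule `N` ... whatever is easiest.) -/
theorem ColA_main {G : Type} [Group G] [Fintype G] (φ : G → ℂ)
    (hφ : ∀ g h : G, IsConj g h → φ g = φ h)
    (h0 : ∀ χ ∈ Irr G, ∑ g, φ g⁻¹ * χ g = 0) : φ = 0 := by
  classical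
  let ρ : Representation ℂ G (G → ℂ) :=
    { toFun := fun g => LinearMap.funLeft ℂ ℂ (fun x => g⁻¹ * x)
      map_one' := by
        apply LinearMap.ext
        intro f
        funext x
        simp [LinearMap.funLeft_apply]
      map_mul' := by
        intro a b
        apply LinearMap.ext
        intro f
        funext x
        simp [LinearMap.funLeft_apply, mul_assoc] }
  have h1 := ColA_transport φ ρ (ColA_all φ hφ h0 _)
  funext x
  have h2 := congrFun (congrArg (fun f => f (Pi.single 1 (1 : ℂ))) h1) x⁻¹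
  simp only [ColA_E_apply, LinearMap.zero_apply, Finset.sum_apply, Pi.smul_apply,
    smul_eq_mul, Pi.zero_apply] at h2
  have h3 : ∀ g, ρ g (Pi.single 1 (1 : ℂ)) x⁻¹ = if g = x⁻¹ then 1 else 0 := by
    intro g
    change (Pi.single 1 (1 : ℂ) : G → ℂ) (g⁻¹ * x⁻¹) = _
    rw [Pi.single_apply]
    congr 1
    rw [eq_iff_iff]
    constructor
    · intro h
      exact (inv_mul_eq_one.mp h)
    · intro h
      rw [h]; group
  simp only [h3, mul_ite, mul_one, mul_zero] at h2
  rw [Finset.sum_ite_eq' Finset.univ x⁻¹] at h2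
  simpa using h2

end Pool.Agent.KBL
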