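import Pool.Agent.KB.Contr

/-! Evaluation of characters at elements of the group algebra over the algebraic integers. -/

namespace Pool.Agent.KBL

open Pool.Agent.KB Pool.Agent.KB.ContrAux

/-- The value of the (linearly extended) function `χ` at an element of the group algebra. -/
noncomputable def ev {G : Type} [Group G] [Fintype G] (χ : G → ℂ) (α : MonoidAlgebra AInt G) : ℂ :=
  ∑ g : G, ((α.coeff g : AInt) : ℂ) * χ g

open Classical in
/-- The class sum. -/
noncomputable def clsum {G : Type} [Group G] [Fintype G] (g : G) : MonoidAlgebra AInt G :=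
  ∑ h : G with IsConj g h, MonoidAlgebra.of AInt G h

theorem CenA_clsum_of {G : Type} [Group G] [Fintype G] (g x : G) :
    clsum g * MonoidAlgebra.of AInt G x = MonoidAlgebra.of AInt G x * clsum g := by
  classical
  unfold clsum
  rw [Finset.sum_mul, Finset.mul_sum]
  refine Finset.sum_bij (fun h _ => x⁻¹ * h * x) ?_ ?_ ?_ ?_
  · intro h hh
    simp only [Finset.mem_filter, Finset.mem_univ, true_and] at hh ⊢
    refine hh.trans ?_
    exact isConj_iff.2 ⟨x⁻¹, by simp⟩
  · intro a _ b _ hab
    simpa using hab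
  · intro b hb
    simp only [Finset.mem_filter, Finset.mem_univ, true_and] at hb
    refine ⟨x * b * x⁻¹, ?_, by group⟩
    simp only [Finset.mem_filter, Finset.mem_univ, true_and]
    exact hb.trans (isConj_iff.2 ⟨x, rfl⟩)
  · intro h _
    rw [← map_mul, ← map_mul]
    congr 1
    group

/-- The class sum is central. -/
theorem CenA_comm {G : Type} [Group G] [Fintype G] (g : G) (α : MonoidAlgebra AInt G) :
    Commute (clsum g) α := by
  induction α using MonoidAlgebra.induction_on with
  | of x => exact CenA_clsum_of g x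
  | add f h hf hh => exact hf.add_right hh
  | smul r f hf => exact hf.smul_right r

/-- Linearity and the value at group elements. -/
theorem CenA_basic {G : Type} [Group G] [Fintype G] (χ : G → ℂ) :
    (∀ α β, ev χ (α + β) = ev χ α + ev χ β) ∧
    (∀ (c : AInt) (α), ev χ (c • α) = (c : ℂ) * ev χ α) ∧
    (∀ x : G, ev χ (MonoidAlgebra.of AInt G x) = χ x) := by
  classical
  refine ⟨fun α β => ?_, fun c α => ?_, fun x => ?_⟩
  · unfold ev
    rw [← Finset.sum_add_distrib]
    refine Finset.sum_congr rfl fun g _ => ?_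
    rw [MonoidAlgebra.coeff_add, Finsupp.add_apply]
    push_cast
    ring
  · unfold ev
    rw [Finset.mul_sum]
    refine Finset.sum_congr rfl fun g _ => ?_
    rw [MonoidAlgebra.coeff_smul_apply, smul_eq_mul]
    push_cast
    ring
  · unfold ev
    rw [Finset.sum_eq_single x]
    · simp
    · intro b _ hb
      simp [Ne.symm hb]
    · intro h
      exact absurd (Finset.mem_univ _) h

/-- The ring homomorphism of a representation. -/
noncomputable def CenA_Phi {G : Type} [Group G] {n : ℕ} (ρ : Representation ℂ G (Fin n → ℂ)) :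
    MonoidAlgebra AInt G →ₐ[AInt] Module.End ℂ (Fin n → ℂ) :=
  MonoidAlgebra.lift AInt (Module.End ℂ (Fin n → ℂ)) G ρ

theorem CenA_Phi_of {G : Type} [Group G] {n : ℕ} (ρ : Representation ℂ G (Fin n → ℂ)) (x : G) :
    CenA_Phi ρ (MonoidAlgebra.of AInt G x) = ρ x := by
  simp [CenA_Phi]

theorem CenA_trace {G : Type} [Group G] [Fintype G] {n : ℕ}
    (ρ : Representation ℂ G (Fin n → ℂ)) (α : MonoidAlgebra AInt G) :
    ev ρ.character α = LinearMap.trace ℂ (Fin n → ℂ) (CenA_Phi ρ α) := by
  obtain ⟨h1, h2, h3⟩ := CenA_basic ρ.character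
  induction α using MonoidAlgebra.induction_on with
  | of x => rw [h3, CenA_Phi_of]; rfl
  | add f h hf hh => rw [h1, map_add, map_add, hf, hh]
  | smul r f hf =>
    rw [h2, map_smul, hf]
    have : (r • CenA_Phi ρ f : Module.End ℂ (Fin n → ℂ)) = (r : ℂ) • CenA_Phi ρ f := rfl
    rw [this, map_smul, smul_eq_mul]

theorem CenA_Phi_clsum {G : Type} [Group G] [Fintype G] {n : ℕ}
    (ρ : Representation ℂ G (Fin n → ℂ)) (hρ : ρ.IsIrreducible) (g : G) :
    CenA_Phi ρ (clsum g) = omega ρ.character g • (1 : Module.End ℂ (Fin n → ℂ)) := by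
  classical
  obtain ⟨hdeg, hpos⟩ := Omega_deg ρ hρ
  have := hρ
  have hcomm : ∀ x : G, (CenA_Phi ρ (clsum g)) ∘ₗ ρ x = ρ x ∘ₗ (CenA_Phi ρ (clsum g)) := by
    intro x
    have h1 := congrArg (CenA_Phi ρ) (CenA_clsum_of g x)
    rw [map_mul, map_mul, CenA_Phi_of] at h1
    exact h1
  let S : Representation.IntertwiningMap ρ ρ :=
    { toLinearMap := CenA_Phi ρ (clsum g)
      isIntertwining' := hcomm }
  obtain ⟨c, hc⟩ :=
    (Representation.IsIrreducible.algebraMap_intertwiningMap_bijective_of_isAlgClosed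
      (ρ := ρ)).2 S
  have hS : CenA_Phi ρ (clsum g) = c • (1 : Module.End ℂ (Fin n → ℂ)) := by
    have h2 : CenA_Phi ρ (clsum g) =
        (algebraMap ℂ (Representation.IntertwiningMap ρ ρ) c).toLinearMap :=
      (congrArg (fun s : Representation.IntertwiningMap ρ ρ => s.toLinearMap) hc).symm
    rw [h2]
    ext v
    simp [Algebra.algebraMap_eq_smul_one]
  have hcard : (Nat.card {h : G // IsConj g h} : ℂ) =
      ((Finset.univ.filter fun h => IsConj g h).card : ℂ) := by
    rw [Nat.card_eq_fintype_card, Fintype.card_subtype]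
  have htr : (Nat.card {h : G // IsConj g h} : ℂ) * ρ.character g =
      c * (Module.finrank ℂ (Fin n → ℂ) : ℂ) := by
    have h3 := congrArg (LinearMap.trace ℂ (Fin n → ℂ)) hS
    have h5 : CenA_Phi ρ (clsum g) = ∑ h : G with IsConj g h, ρ h := by
      unfold clsum
      rw [map_sum]
      exact Finset.sum_congr rfl fun h _ => CenA_Phi_of ρ h
    rw [h5, map_sum] at h3
    have h4 : ∀ h ∈ Finset.univ.filter (fun h => IsConj g h),
        LinearMap.trace ℂ (Fin n → ℂ) (ρ h) = ρ.character g := by
      intro h hh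
      simp only [Finset.mem_filter, Finset.mem_univ, true_and] at hh
      obtain ⟨y, hy⟩ := isConj_iff.1 hh
      rw [← hy]
      exact Representation.char_conj ρ g y
    rw [Finset.sum_congr rfl h4, Finset.sum_const, nsmul_eq_mul, ← hcard] at h3
    rw [h3, map_smul, LinearMap.trace_one]
    simp
  have hfin : (Module.finrank ℂ (Fin n → ℂ) : ℂ) ≠ 0 := by exact_mod_cast hpos.ne'
  have hω : omega ρ.character g = c := by
    unfold omega
    rw [hdeg, htr, mul_div_assoc, div_self hfin, mul_one]
  rw [hω, hS]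

/-- HINT: `ev ρ.character α = trace (Φ α)` with the ring homomorphism `Φ : MonoidAlgebra AInt G →
Module.End ℂ (Fin n → ℂ)` (`MonoidAlgebra.lift AInt _ G ρ`). `Φ (clsum g)` is the scalar
`omega χ g` (the proof is inside `Omega_int` in `Pool/Agent/KB/Omega.lean`). -/
theorem CenA_scalar {G : Type} [Group G] [Fintype G] (χ : G → ℂ) (hχ : χ ∈ Irr G) (g : G)
    (α : MonoidAlgebra AInt G) :
    ev χ (clsum g * α) = omega χ g * ev χ α := by
  obtain ⟨n, ρ, hρ, rfl⟩ := hχ
  rw [CenA_trace, CenA_trace, map_mul, CenA_Phi_clsum ρ hρ, smul_mul_assoc, one_mul, map_smul,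
    smul_eq_mul]

end Pool.Agent.KBL
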