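import Pool.Agent.KBL.NeckA

/-! The necklace lemma: sums of coefficients of `α^(p^j)` over the class of a `p`-singular element. -/

namespace Pool.Agent.KBL

/-- expansion of a power into words -/
theorem Neck_pow {G R : Type} [Group G] [Fintype G] [CommRing R] (α : MonoidAlgebra R G) (n : ℕ) :
    α ^ n = ∑ w : Fin n → G, MonoidAlgebra.single (List.ofFn w).prod (∏ i, α.coeff (w i)) := by
  classical
  have hα : α = ∑ h : G, MonoidAlgebra.single h (α.coeff h) := by
    conv_lhs => rw [← MonoidAlgebra.sum_coeff_single α]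
    rw [Finsupp.sum_fintype _ _ (fun i => by simp)]
  induction n with
  | zero =>
    rw [pow_zero, Fintype.sum_unique]
    simp [MonoidAlgebra.one_def]
  | succ n ih =>
    rw [pow_succ', ih]
    conv_lhs => rw [hα]
    rw [Finset.sum_mul_sum, ← Fintype.sum_prod_type']
    rw [← Equiv.sum_comp (Fin.consEquiv (fun _ => G))]
    refine Finset.sum_congr rfl fun x _ => ?_
    rw [MonoidAlgebra.single_mul_single]
    congr 1
    · simp [Fin.consEquiv, List.ofFn_succ]
    · simp [Fin.consEquiv, Fin.prod_univ_succ]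

theorem Neck_coeff {G R : Type} [Group G] [Fintype G] [DecidableEq G] [CommRing R]
    (α : MonoidAlgebra R G) (n : ℕ) (g : G) :
    (α ^ n).coeff g = ∑ w : Fin n → G, if (List.ofFn w).prod = g then ∏ i, α.coeff (w i) else 0 := by
  rw [Neck_pow, MonoidAlgebra.coeff_sum, Finsupp.finset_sum_apply]
  refine Finset.sum_congr rfl fun w _ => ?_
  rw [MonoidAlgebra.coeff_single_apply]

/-- product of the rotated word -/
theorem Neck_rot {G : Type} [Group G] (m : ℕ) (w : Fin (m + 1) → G) :
    (List.ofFn fun i => w (i + 1)).prod = (w 0)⁻¹ * (List.ofFn w).prod * w 0 := by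
  rw [List.ofFn_succ' (f := fun i => w (i + 1)), List.concat_eq_append, List.prod_append,
    List.ofFn_succ (f := w)]
  simp only [Fin.coeSucc_eq_succ, Fin.last_add_one, List.prod_cons, List.prod_nil, mul_one]
  group

/-- rotation of words -/
def Neck_sig (G : Type) (m : ℕ) : Equiv.Perm (Fin (m + 1) → G) where
  toFun w := fun i => w (i + 1)
  invFun w := fun i => w (i - 1)
  left_inv w := by funext i; simp
  right_inv w := by funext i; simp

theorem Neck_sig_pow (G : Type) (m k : ℕ) (w : Fin (m + 1) → G) (i : Fin (m + 1)) :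
    ((Neck_sig G m) ^ k) w i = w ⟨((i : ℕ) + k) % (m + 1), Nat.mod_lt _ (Nat.succ_pos m)⟩ := by
  induction k generalizing w i with
  | zero =>
    rw [pow_zero, Equiv.Perm.one_apply]
    congr 1
    apply Fin.ext
    simp [Nat.mod_eq_of_lt i.2]
  | succ k ih =>
    rw [pow_succ, Equiv.Perm.mul_apply, ih]
    change w (⟨((i : ℕ) + k) % (m + 1), Nat.mod_lt _ (Nat.succ_pos m)⟩ + 1) = _
    congr 1
    apply Fin.ext
    rw [Fin.val_add]
    simp only [Fin.val_one', Nat.mod_add_mod, Nat.add_mod_mod, add_assoc]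

/-- a periodic word has a product which is a power -/
theorem Neck_per {G : Type} [Group G] (N c d : ℕ) (hN : N = c * d) (w : Fin N → G)
    (hw : ∀ (i j : Fin N), (i : ℕ) % d = (j : ℕ) % d → w i = w j) :
    ∃ u : G, (List.ofFn w).prod = u ^ c := by
  subst hN
  rcases Nat.eq_zero_or_pos c with rfl | hc
  · refine ⟨1, ?_⟩
    have : List.ofFn w = [] := by
      rw [← List.length_eq_zero_iff, List.length_ofFn, Nat.zero_mul]
    rw [this]; simp
  · have hcd : ∀ j : Fin d, (j : ℕ) < c * d := fun j =>
      lt_of_lt_of_le j.2 (Nat.le_mul_of_pos_left d hc)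
    refine ⟨(List.ofFn fun j : Fin d => w ⟨j, hcd j⟩).prod, ?_⟩
    rw [List.ofFn_mul]
    have h2 : (List.ofFn fun i : Fin c => List.ofFn fun j : Fin d =>
        w ⟨i * d + j, by
          have h1 : (i : ℕ) + 1 ≤ c := i.2
          have h2 := Nat.mul_le_mul_right d h1
          have h3 := j.2
          rw [Nat.add_mul] at h2
          omega⟩) =
        List.replicate c (List.ofFn fun j : Fin d => w ⟨j, hcd j⟩) := by
      rw [List.eq_replicate_iff]
      refine ⟨by simp, ?_⟩
      intro b hb
      rw [List.mem_ofFn] at hb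
      obtain ⟨i, rfl⟩ := hb
      congr 1
      funext j
      apply hw
      simp
    rw [h2, List.prod_flatten, List.map_replicate, List.prod_replicate]

theorem Neck_congr {G : Type} {n : ℕ} (w : Fin n → G) {i j : Fin n} (h : (i : ℕ) = j) :
    w i = w j := by rw [Fin.ext h]

open Classical in
/-- HINT: `(α^N).coeff g = ∑ over w : Fin N → G with (List.ofFn w).prod = g of ∏ i, α (w i)` (induction on
`N`, `Fin.cons`, `MonoidAlgebra.mul_apply` or work with `MonoidAlgebra.of`-expansions). Let `X` be the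
set of words `w` of length `N = p^j` whose product is conjugate to `y`, `σ` the rotation (the product
of the rotated word is conjugate to the product). `σ^(p^j) = 1`. If `σ^(p^e) w = w` with
`e = j - a` (`a = padicValNat p |G|`, `e ≤ j`), then `w` is a word of length `p^e` repeated `p^a` times
(if `j ≥ a`), so its product is a `p^a`-th power, whose order is prime to `p`; but `p ∣ orderOf y`. Then
`NeckA_main` with `F w = ∏ i, α (w i)`. -/
theorem Neck_main {G R : Type} [Group G] [Fintype G] [CommRing R] (p : ℕ) (hp : p.Prime)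
    (y : G) (hy : p ∣ orderOf y) (α : MonoidAlgebra R G) (j : ℕ)
    (hj : padicValNat p (Nat.card G) ≤ j) :
    ((p : R) ^ (j - padicValNat p (Nat.card G) + 1)) ∣ ∑ g : G with IsConj y g, (α ^ (p ^ j)).coeff g := by
  set a := padicValNat p (Nat.card G) with ha
  have hpj : 0 < p ^ j := pow_pos hp.pos j
  obtain ⟨m, hm⟩ := Nat.exists_eq_succ_of_ne_zero hpj.ne'
  rw [Nat.succ_eq_add_one] at hm
  let σ := Neck_sig G m
  have hσP : ∀ w : Fin (m + 1) → G, IsConj y (List.ofFn (σ w)).prod ↔ IsConj y (List.ofFn w).prod := by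
    intro w
    have h1 : IsConj (List.ofFn w).prod (List.ofFn (σ w)).prod := by
      refine isConj_iff.2 ⟨(w 0)⁻¹, ?_⟩
      rw [inv_inv]
      exact (Neck_rot m w).symm
    exact ⟨fun h => h.trans h1.symm, fun h => h.trans h1⟩
  let X := {w : Fin (m + 1) → G // IsConj y (List.ofFn w).prod}
  let τ : Equiv.Perm X := σ.subtypePerm hσP
  have hτ : ∀ (k : ℕ) (x : X), ((τ ^ k) x).1 = (σ ^ k) x.1 := by
    intro k x
    rw [Equiv.Perm.subtypePerm_pow]
    rfl
  have key := NeckA_main (R := R) p j (j - a) hp τ ?_ ?_ (fun x : X => ∏ i, α.coeff (x.1 i)) ?_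
  · have hsum : ∑ g : G with IsConj y g, (α ^ (p ^ j)).coeff g =
        ∑ x : X, ∏ i, α.coeff (x.1 i) := by
      rw [hm]
      simp only [Neck_coeff]
      rw [Finset.sum_comm]
      have h1 : ∀ w : Fin (m + 1) → G, (∑ g : G with IsConj y g,
          if (List.ofFn w).prod = g then ∏ i, α.coeff (w i) else 0) =
          if IsConj y (List.ofFn w).prod then ∏ i, α.coeff (w i) else 0 := by
        intro w
        rw [Finset.sum_ite_eq]
        simp
      simp only [h1]
      rw [← Finset.sum_filter]
      exact Finset.sum_subtype _ (fun w => by simp) _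
    rw [hsum]
    exact key
  · apply Equiv.ext
    intro x
    apply Subtype.ext
    rw [hτ, Equiv.Perm.one_apply]
    funext i
    rw [Neck_sig_pow, hm]
    refine Neck_congr _ ?_
    simp [Nat.mod_eq_of_lt i.2]
  · intro x hx
    set d := p ^ (j - a) with hd
    have hfix : (σ ^ d) x.1 = x.1 := by rw [← hτ, hx]
    have hper1 : ∀ i : Fin (m + 1),
        x.1 ⟨((i : ℕ) + d) % (m + 1), Nat.mod_lt _ (Nat.succ_pos m)⟩ = x.1 i := by
      intro i
      exact (Neck_sig_pow G m d x.1 i).symm.trans (congrFun hfix i)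
    have hper2 : ∀ (k : ℕ) (i : Fin (m + 1)),
        x.1 ⟨((i : ℕ) + k * d) % (m + 1), Nat.mod_lt _ (Nat.succ_pos m)⟩ = x.1 i := by
      intro k
      induction k with
      | zero =>
        intro i
        refine Neck_congr _ ?_
        simp [Nat.mod_eq_of_lt i.2]
      | succ k ih =>
        intro i
        refine Eq.trans ?_ (ih i)
        refine Eq.trans ?_ (hper1 ⟨((i : ℕ) + k * d) % (m + 1), Nat.mod_lt _ (Nat.succ_pos m)⟩)
        refine Neck_congr _ ?_
        simp only [Nat.mod_add_mod]
        rw [Nat.add_mul, Nat.one_mul, add_assoc]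
    have hN : m + 1 = p ^ a * d := by
      rw [hd, ← pow_add, ← hm]
      congr 1
      omega
    obtain ⟨u, hu⟩ := Neck_per (m + 1) (p ^ a) d hN x.1 (by
      have hlt : ∀ i : Fin (m + 1), (i : ℕ) % d < m + 1 := fun i =>
        lt_of_le_of_lt (Nat.mod_le _ _) i.2
      have hred : ∀ i : Fin (m + 1), x.1 i = x.1 ⟨(i : ℕ) % d, hlt i⟩ := by
        intro i
        rw [← hper2 ((i : ℕ) / d) ⟨(i : ℕ) % d, hlt i⟩]
        refine Neck_congr _ ?_
        simp only
        rw [Nat.mul_comm, Nat.mod_add_div, Nat.mod_eq_of_lt i.2]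
      intro i i' h
      rw [hred i, hred i']
      exact Neck_congr _ h)
    have : Fact p.Prime := ⟨hp⟩
    have hyu : p ∣ orderOf (u ^ (p ^ a)) := by
      rw [← hu]
      obtain ⟨c, hc⟩ := isConj_iff.1 x.2
      have : orderOf (List.ofFn x.1).prod = orderOf y := by
        rw [← hc]
        exact (MulAut.conj c).orderOf_eq y
      rw [this]
      exact hy
    have hdvd : p ^ a ∣ Nat.card G := pow_padicValNat_dvd
    obtain ⟨m', hm'⟩ := hdvd
    have h1 : (u ^ (p ^ a)) ^ m' = 1 := by
      rw [← pow_mul, ← hm']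
      exact pow_card_eq_one'
    have h2 : p ∣ m' := hyu.trans (orderOf_dvd_of_pow_eq_one h1)
    have h3 : p ^ (a + 1) ∣ Nat.card G := by
      rw [hm', pow_succ]
      exact Nat.mul_dvd_mul_left _ h2
    exact pow_succ_padicValNat_not_dvd Nat.card_pos.ne' h3
  · intro x
    change ∏ i, α.coeff (x.1 (i + 1)) = ∏ i, α.coeff (x.1 i)
    exact Fintype.prod_equiv (Equiv.addRight (1 : Fin (m + 1))) _ _ (fun i => rfl)

end Pool.Agent.KBL
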