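import Pool.Agent.KBL.LimA
import Pool.Agent.KBL.Neck
import Pool.Agent.KBL.Cen
import Pool.Agent.KBL.Col

/-! Block orthogonality: `∑_{η ∈ B} η(x) η(y⁻¹) = 0` for `x` `p`-regular and `y` `p`-singular. -/

namespace Pool.Agent.KBL

open Pool.Agent.KB Pool.Agent.KB.ContrAux

open Classical in
/-- HINT: the sum of the coefficients of `α` over the class of `y` is
`(|C|/|G|) ∑ i, X i y⁻¹ * ev (X i) α` (insert the definition of `ev`, column orthogonality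
`Col_main`). -/
theorem Lim_coeff {G : Type} [Group G] [Fintype G] {K : ℕ} (X : Fin K → G → ℂ)
    (h1 : ∀ g h : G, ¬ IsConj g h → ∑ i, X i g * X i h⁻¹ = 0)
    (h2 : ∀ g h : G, IsConj g h → ∑ i, X i g * X i h⁻¹ =
        (Nat.card G : ℂ) / (Nat.card {x : G // IsConj g x} : ℂ))
    (y : G) (α : MonoidAlgebra AInt G) :
    (Nat.card {x : G // IsConj y x} : ℂ) * ∑ i, X i y⁻¹ * ev (X i) α =
      (Nat.card G : ℂ) * (((∑ g : G with IsConj y g, α.coeff g : AInt)) : ℂ) := by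
  have hne : (Nat.card {x : G // IsConj y x} : ℂ) ≠ 0 := by
    have : Nonempty {x : G // IsConj y x} := ⟨⟨y, IsConj.refl y⟩⟩
    exact_mod_cast Nat.card_pos.ne'
  have e1 : ∑ i, X i y⁻¹ * ev (X i) α =
      ∑ g : G, ((α.coeff g : AInt) : ℂ) * ∑ i, X i g * X i y⁻¹ := by
    simp only [ev, Finset.mul_sum]
    rw [Finset.sum_comm]
    refine Finset.sum_congr rfl fun g _ => Finset.sum_congr rfl fun i _ => ?_
    ring
  have e2 : ∀ g : G, ∑ i, X i g * X i y⁻¹ = if IsConj y g then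
      (Nat.card G : ℂ) / (Nat.card {x : G // IsConj y x} : ℂ) else 0 := by
    intro g
    by_cases hg : IsConj y g
    · rw [if_pos hg, h2 g y hg.symm]
      congr 2
      refine Nat.card_congr (Equiv.subtypeEquivRight fun z => ?_)
      exact ⟨fun h => hg.trans h, fun h => hg.symm.trans h⟩
    · rw [if_neg hg]
      exact h1 g y fun h => hg h.symm
  have e3 : (((∑ g : G with IsConj y g, α.coeff g : AInt)) : ℂ) =
      ∑ g : G with IsConj y g, ((α.coeff g : AInt) : ℂ) := by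
    push_cast
    rfl
  rw [e1, e3, Finset.sum_filter, Finset.mul_sum, Finset.mul_sum]
  refine Finset.sum_congr rfl fun g _ => ?_
  rw [e2 g]
  by_cases hg : IsConj y g
  · rw [if_pos hg, if_pos hg]
    field_simp
  · rw [if_neg hg, if_neg hg]
    simp

theorem Lim_pow {G : Type} [Group G] {p : ℕ} (hp : p.Prime) {x : G} [Finite G]
    (hx : ¬ p ∣ orderOf x) (j : ℕ) : x ^ (p ^ (j * Nat.totient (orderOf x))) = x := by
  have hcop : Nat.Coprime p (orderOf x) := (Nat.Prime.coprime_iff_not_dvd hp).2 hx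
  have h1 : p ^ (j * Nat.totient (orderOf x)) ≡ 1 [MOD orderOf x] := by
    rw [mul_comm, pow_mul]
    have := (Nat.ModEq.pow_totient hcop).pow j
    rwa [one_pow] at this
  have h2 := pow_eq_pow_iff_modEq.2 h1
  rw [h2, pow_one]

theorem Lim_step {p : ℕ} {s β : AInt} {i₀ : ℕ} (h : (p : AInt) ∣ s * (β ^ (p ^ i₀) - 1))
    (r : ℕ) : (p : AInt) ^ (r + 1) ∣ s ^ (p ^ r) * (β ^ (p ^ (i₀ + r)) - 1) := by
  have h1 : (p : AInt) ∣ s * β ^ (p ^ i₀) - s := by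
    have : s * β ^ (p ^ i₀) - s = s * (β ^ (p ^ i₀) - 1) := by ring
    rwa [this]
  have h2 := dvd_sub_pow_of_dvd_sub h1 r
  have h3 : (s * β ^ (p ^ i₀)) ^ p ^ r - s ^ p ^ r =
      s ^ (p ^ r) * (β ^ (p ^ (i₀ + r)) - 1) := by
    rw [mul_pow, ← pow_mul, ← pow_add]
    ring
  rwa [h3] at h2

/-- one half of the statement -/
theorem Lim_half {G : Type} [Group G] [Fintype G] (p : ℕ) (hp : p.Prime) (𝔪 : Ideal AInt)
    (h𝔪 : 𝔪.IsMaximal) (hp𝔪 : (p : AInt) ∈ 𝔪) (χ₀ : G → ℂ) (hχ₀ : χ₀ ∈ Irr G)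
    {K : ℕ} (X : Fin K → G → ℂ) (hX : Set.range X = Irr G)
    (h1 : ∀ g h : G, ¬ IsConj g h → ∑ i, X i g * X i h⁻¹ = 0)
    (h2 : ∀ g h : G, IsConj g h → ∑ i, X i g * X i h⁻¹ =
        (Nat.card G : ℂ) / (Nat.card {x : G // IsConj g x} : ℂ))
    (J : Finset (Fin K)) (hJ : ∀ i, i ∈ J ↔ X i ∈ block 𝔪 χ₀)
    (x y : G) (hx : ¬ p ∣ orderOf x) (hy : p ∣ orderOf y) :
    ∑ i ∈ J, X i x * X i y⁻¹ = 0 := by
  classical
  obtain ⟨b, β, hb1, hb2, hb3, hb4⟩ := Cen_main 𝔪 h𝔪 χ₀ hχ₀ X hX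
  have hIrr : ∀ i, X i ∈ Irr G := fun i => hX ▸ Set.mem_range_self i
  set a := padicValNat p (Nat.card G) with ha
  -- the uniform multiplier
  have hex : ∀ i ∈ J, ∃ (s : AInt) (i₀ : ℕ), s ∉ 𝔪 ∧
      ∀ k, i₀ ≤ k → (p : AInt) ∣ s * (β (X i) ^ (p ^ k) - 1) := fun i hi =>
    LimA_unit p hp 𝔪 h𝔪 hp𝔪 _ (hb4 _ ((hJ i).1 hi))
  obtain ⟨s, i₀, hs, ha0, hs1⟩ : ∃ (s : AInt) (i₀ : ℕ), s ∉ 𝔪 ∧ a ≤ i₀ ∧
      ∀ i ∈ J, (p : AInt) ∣ s * (β (X i) ^ (p ^ i₀) - 1) := by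
    choose! s i₀ hs hi₀ using hex
    refine ⟨∏ i ∈ J, s i, a + ∑ i ∈ J, i₀ i, ?_, Nat.le_add_right _ _, fun i hi => ?_⟩
    · intro hmem
      obtain ⟨i, hi, h⟩ := h𝔪.isPrime.prod_mem_iff.1 hmem
      exact hs i hi h
    · have h3 : i₀ i ≤ a + ∑ i ∈ J, i₀ i :=
        (Finset.single_le_sum (f := i₀) (fun _ _ => Nat.zero_le _) hi).trans
          (Nat.le_add_left _ _)
      have h4 := hi₀ i hi _ h3
      rw [← Finset.mul_prod_erase J s hi]
      obtain ⟨c, hc⟩ := h4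
      refine ⟨(∏ x ∈ J.erase i, s x) * c, ?_⟩
      calc s i * (∏ x ∈ J.erase i, s x) * (β (X i) ^ (p ^ (a + ∑ i ∈ J, i₀ i)) - 1)
          = (∏ x ∈ J.erase i, s x) * (s i * (β (X i) ^ (p ^ (a + ∑ i ∈ J, i₀ i)) - 1)) := by
            ring
        _ = (∏ x ∈ J.erase i, s x) * (p * c) := by rw [hc]
        _ = _ := by ring
  -- the integral version of the sum
  have hu : ∀ i, IsIntegral ℤ (X i x * X i y⁻¹) := fun i =>
    (irr_integral (hIrr i) x).mul (irr_integral (hIrr i) y⁻¹)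
  set u : Fin K → AInt := fun i => ⟨X i x * X i y⁻¹, hu i⟩ with hudef
  have hucoe : ∀ i, ((u i : AInt) : ℂ) = X i x * X i y⁻¹ := fun _ => rfl
  set C : ℕ := Nat.card {z : G // IsConj y z} with hC
  have hC0 : C ≠ 0 := by
    have : Nonempty {z : G // IsConj y z} := ⟨⟨y, IsConj.refl y⟩⟩
    exact Nat.card_pos.ne'
  -- the divisibility from the necklace lemma
  have hneck : ∀ j, a ≤ j → x ^ (p ^ j) = x →
      (p : AInt) ^ (j - a + 1) ∣ (C : AInt) * ∑ i ∈ J, β (X i) ^ (p ^ j) * u i := by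
    intro j hj hxj
    set α : MonoidAlgebra AInt G := MonoidAlgebra.of AInt G x * b with hα
    have hαj : α ^ (p ^ j) = MonoidAlgebra.of AInt G x * b ^ (p ^ j) := by
      have hc : Commute (MonoidAlgebra.of AInt G x) b := (hb1 _).symm
      rw [hα, hc.mul_pow, ← map_pow, hxj]
    obtain ⟨c, hc⟩ := Neck_main (R := AInt) p hp y hy α j hj
    have h3 := Lim_coeff X h1 h2 y (α ^ (p ^ j))
    have h4 : ∑ i, X i y⁻¹ * ev (X i) (α ^ (p ^ j)) =
        ((∑ i ∈ J, β (X i) ^ (p ^ j) * u i : AInt) : ℂ) := by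
      push_cast
      rw [← Finset.sum_subset (Finset.subset_univ J)]
      · refine Finset.sum_congr rfl fun i _ => ?_
        rw [hαj, hb2 _ (hIrr i) x (p ^ j), hucoe]
        ring
      · intro i _ hi
        rw [hαj, hb2 _ (hIrr i) x (p ^ j), hb3 _ (hIrr i) fun h => hi ((hJ i).2 h)]
        have h0 : ((0 : AInt) : ℂ) ^ (p ^ j) = 0 := by
          rw [ZeroMemClass.coe_zero]
          exact zero_pow (pow_ne_zero _ hp.ne_zero)
        rw [h0, zero_mul, mul_zero]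
    have h5 : (C : AInt) * ∑ i ∈ J, β (X i) ^ (p ^ j) * u i =
        (Nat.card G : AInt) * ∑ g : G with IsConj y g, (α ^ (p ^ j)).coeff g := by
      apply Subtype.ext
      rw [h4] at h3
      push_cast at h3 ⊢
      convert h3 using 1
    rw [h5]
    exact Dvd.dvd.mul_left ⟨c, hc⟩ _
  have hκ : (C : AInt) * ∑ i ∈ J, u i = 0 := by
    refine LimA_zero p hp 𝔪 h𝔪 hp𝔪 s _ hs fun r₀ => ?_
    -- a good exponent
    set N := (i₀ + r₀) * Nat.totient (orderOf x) with hN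
    have htot : 0 < Nat.totient (orderOf x) := Nat.totient_pos.2 (orderOf_pos x)
    have hNle : i₀ + r₀ ≤ N := Nat.le_mul_of_pos_right _ htot
    refine ⟨N - i₀, by omega, ?_⟩
    set r := N - i₀ with hr
    have hNr : N = i₀ + r := by omega
    have hxN : x ^ (p ^ N) = x := Lim_pow hp hx (i₀ + r₀)
    have h3 := hneck N (by omega) hxN
    have h4 : (p : AInt) ^ (r + 1) ∣ (C : AInt) * ∑ i ∈ J, β (X i) ^ (p ^ N) * u i :=
      (pow_dvd_pow _ (by omega)).trans h3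
    have h5 : s ^ (p ^ r) * ((C : AInt) * ∑ i ∈ J, u i) =
        s ^ (p ^ r) * ((C : AInt) * ∑ i ∈ J, β (X i) ^ (p ^ N) * u i) -
        (C : AInt) * ∑ i ∈ J, (s ^ (p ^ r) * (β (X i) ^ (p ^ N) - 1)) * u i := by
      rw [Finset.mul_sum, Finset.mul_sum, Finset.mul_sum, Finset.mul_sum, Finset.mul_sum,
        ← Finset.sum_sub_distrib]
      refine Finset.sum_congr rfl fun i _ => ?_
      ring
    rw [h5]
    refine dvd_sub (Dvd.dvd.mul_left h4 _) (Dvd.dvd.mul_left ?_ _)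
    refine Finset.dvd_sum fun i hi => Dvd.dvd.mul_right ?_ _
    rw [hNr]
    exact Lim_step (hs1 i hi) r
  have hC1 : (C : AInt) ≠ 0 := by exact_mod_cast hC0
  have h6 : ∑ i ∈ J, u i = 0 := (mul_eq_zero.1 hκ).resolve_left hC1
  have h7 : ((∑ i ∈ J, u i : AInt) : ℂ) = 0 := by rw [h6]; rfl
  push_cast at h7
  exact h7

/-- HINT: `a = padicValNat p |G|`. Let `b, β` be as in `Cen_main`, and let `s ∉ 𝔪`, `i₀ ≥ a` work
for all `β (X i)`, `i ∈ J`, in `LimA_unit` (product of the `s`, maximum of the `i₀`). Let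
`n = orderOf x`; there are infinitely many `j` with `p^j ≡ 1 mod n` (multiples of the order of `p`
modulo `n`). For such `j = i₀ + r`: `(x b)^(p^j) = x b^(p^j)`. By `Neck_main`, `Lim_coeff` and
`Cen_main` the number `|C| ∑_{i ∈ J} β_i^(p^j) η_i(x) η_i(y⁻¹)` is in `p^(j-a+1) AInt`, so in
`p^(r+1) AInt`. From `p ∣ s β_i^(p^i₀) - s`: `p^(r+1) ∣ s^(p^r) (β_i^(p^j) - 1)`
(`dvd_sub_pow_of_dvd_sub`). Hence `p^(r+1) ∣ s^(p^r) |C| ∑_{i ∈ J} η_i(x) η_i(y⁻¹)` for infinitely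
many `r`, and `LimA_zero` applies. -/
theorem Lim_main {G : Type} [Group G] [Fintype G] (p : ℕ) (hp : p.Prime) (𝔪 : Ideal AInt)
    (h𝔪 : 𝔪.IsMaximal) (hp𝔪 : (p : AInt) ∈ 𝔪) (χ₀ : G → ℂ) (hχ₀ : χ₀ ∈ Irr G)
    {K : ℕ} (X : Fin K → G → ℂ) (hX : Set.range X = Irr G)
    (h1 : ∀ g h : G, ¬ IsConj g h → ∑ i, X i g * X i h⁻¹ = 0)
    (h2 : ∀ g h : G, IsConj g h → ∑ i, X i g * X i h⁻¹ =
        (Nat.card G : ℂ) / (Nat.card {x : G // IsConj g x} : ℂ))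
    (J : Finset (Fin K)) (hJ : ∀ i, i ∈ J ↔ X i ∈ block 𝔪 χ₀)
    (x y : G) (hx : ¬ p ∣ orderOf x) (hy : p ∣ orderOf y) :
    ∑ i ∈ J, X i x * X i y⁻¹ = 0 ∧ ∑ i ∈ J, X i y * X i x⁻¹ = 0 := by
  have h3 := Lim_half p hp 𝔪 h𝔪 hp𝔪 χ₀ hχ₀ X hX h1 h2 J hJ x y hx hy
  refine ⟨h3, ?_⟩
  have hIrr : ∀ i, X i ∈ Irr G := fun i => hX ▸ Set.mem_range_self i
  have h4 := congrArg (starRingEnd ℂ) h3
  rw [map_sum, map_zero] at h4
  rw [← h4]
  refine Finset.sum_congr rfl fun i _ => ?_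
  rw [map_mul, ← irr_inv (hIrr i) x, ← irr_inv (hIrr i) y⁻¹, inv_inv]
  ring

end Pool.Agent.KBL
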