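import Mathlib

/-! Sums of invariant functions over the orbits of a permutation of `p`-power order. -/

namespace Pool.Agent.KBL

/-- HINT: group the sum over the orbits of the cyclic group `zpowers σ` (`MulAction.orbitRel`,
`Finset.sum_fiberwise` or `Pool.Agent.KB.Orb_sum`). The size of an orbit divides `p^j`, so it is
`p^s`; if `s ≤ e` then `σ^(p^e)` fixes the points of the orbit. -/
theorem NeckA_main {X R : Type} [Fintype X] [CommRing R] (p j e : ℕ) (hp : p.Prime)
    (σ : Equiv.Perm X) (hσ : σ ^ (p ^ j) = 1) (hfix : ∀ x, (σ ^ (p ^ e)) x ≠ x)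
    (F : X → R) (hF : ∀ x, F (σ x) = F x) :
    ((p : R) ^ (e + 1)) ∣ ∑ x, F x := by
  classical
  let H := Subgroup.zpowers σ
  let π : X → MulAction.orbitRel.Quotient H X := fun x => Quotient.mk _ x
  haveI : Fintype (MulAction.orbitRel.Quotient H X) := Fintype.ofFinite _
  have hFz : ∀ (n : ℤ) (x : X), F ((σ ^ n) x) = F x := by
    have hn : ∀ (n : ℕ) (x : X), F ((σ ^ n) x) = F x := by
      intro n
      induction n with
      | zero => intro x; rfl
      | succ n ih =>
        intro x
        rw [pow_succ', Equiv.Perm.mul_apply, hF, ih]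
    intro n x
    rcases n with n | n
    · exact hn n x
    · have h1 := hn (n + 1) ((σ ^ (Int.negSucc n)) x)
      rw [← h1, ← zpow_natCast, ← Equiv.Perm.mul_apply, ← zpow_add]
      have e1 : ((n + 1 : ℕ) : ℤ) + Int.negSucc n = 0 := by omega
      rw [e1, zpow_zero]
      rfl
  rw [← Finset.sum_fiberwise Finset.univ π F]
  refine Finset.dvd_sum fun q _ => ?_
  obtain ⟨x₀, rfl⟩ : ∃ x₀, π x₀ = q := Quotient.exists_rep q
  have hmem : ∀ x, π x = π x₀ ↔ x ∈ MulAction.orbit H x₀ := by
    intro x
    show (Quotient.mk _ x : MulAction.orbitRel.Quotient H X) = Quotient.mk _ x₀ ↔ _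
    rw [Quotient.eq, MulAction.orbitRel_apply]
  have h1 : ∀ x ∈ Finset.univ.filter (fun x => π x = π x₀), F x = F x₀ := by
    intro x hx
    rw [Finset.mem_filter] at hx
    obtain ⟨⟨h, n, hn⟩, rfl⟩ := (hmem x).1 hx.2
    have h2 : F (h x₀) = F x₀ := by
      rw [← hn]
      exact hFz n x₀
    exact h2
  rw [Finset.sum_congr rfl h1, Finset.sum_const, nsmul_eq_mul]
  have h2 : (Finset.univ.filter (fun x => π x = π x₀)).card =
      Function.minimalPeriod (σ • ·) x₀ := by
    rw [MulAction.minimalPeriod_eq_card, ← Set.toFinset_card]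
    congr 1
    ext x
    simp only [Finset.mem_filter, Finset.mem_univ, true_and, Set.mem_toFinset]
    exact hmem x
  rw [h2]
  have h3 : Function.minimalPeriod (σ • ·) x₀ ∣ p ^ j := by
    rw [← MulAction.pow_smul_eq_iff_minimalPeriod_dvd, hσ]
    rfl
  obtain ⟨s, hs, hs2⟩ := (Nat.dvd_prime_pow hp).1 h3
  have h4 : ¬ s ≤ e := by
    intro hse
    have h5 : Function.minimalPeriod (σ • ·) x₀ ∣ p ^ e := by
      rw [hs2]
      exact pow_dvd_pow p hse
    rw [← MulAction.pow_smul_eq_iff_minimalPeriod_dvd] at h5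
    exact hfix x₀ h5
  rw [hs2]
  push_cast
  exact (pow_dvd_pow (p : R) (by omega)).mul_right _

end Pool.Agent.KBL
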